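import Mathlib

/-!
# Oblivious subspace injections and the randomized SVD: definitions

* `sqn x` : squared Euclidean norm of a real vector.
* `frob M` : Frobenius norm.
* `IsMoorePenrose M N` : the four Penrose equations; `pinv M` is the Moore-Penrose pseudoinverse
  (`pinv_spec`, `pinv_unique`).
* `rsvd A S = (A S) (A S)⁺ A`.
* `bestErr A r` : the smallest Frobenius error of an approximation of `A` of rank at most `r`.
* `IsOSI P S r α δ` : the random matrix `S` is an oblivious subspace injection with dimension `r`,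
  injectivity `α` and failure probability `δ`.
-/

namespace Pool.Agent.H321R2.OSI

open MeasureTheory Matrix

/-- Squared Euclidean norm. -/
def sqn {n : ℕ} (x : Fin n → ℝ) : ℝ := ∑ i, x i ^ 2

/-- Frobenius norm. -/
noncomputable def frob {m n : ℕ} (M : Matrix (Fin m) (Fin n) ℝ) : ℝ :=
  Real.sqrt (∑ i, ∑ j, M i j ^ 2)

/-- The four Penrose equations. -/
structure IsMoorePenrose {m n : ℕ} (M : Matrix (Fin m) (Fin n) ℝ)
    (N : Matrix (Fin n) (Fin m) ℝ) : Prop where
  mnm : M * N * M = M
  nmn : N * M * N = N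
  mn_symm : (M * N)ᵀ = M * N
  nm_symm : (N * M)ᵀ = N * M

theorem IsMoorePenrose.unique {m n : ℕ} {M : Matrix (Fin m) (Fin n) ℝ}
    {N N' : Matrix (Fin n) (Fin m) ℝ} (h : IsMoorePenrose M N) (h' : IsMoorePenrose M N') :
    N = N' := by
  have e1 : M * N = M * N' := by
    calc M * N = (M * N' * M) * N := by rw [h'.mnm]
      _ = (M * N') * (M * N) := by rw [Matrix.mul_assoc]
      _ = (M * N')ᵀ * (M * N)ᵀ := by rw [h'.mn_symm, h.mn_symm]
      _ = (M * N * (M * N'))ᵀ := by rw [← Matrix.transpose_mul]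
      _ = (M * N * M * N')ᵀ := by rw [Matrix.mul_assoc (M * N)]
      _ = (M * N')ᵀ := by rw [h.mnm]
      _ = M * N' := h'.mn_symm
  have e2 : N * M = N' * M := by
    calc N * M = N * (M * N' * M) := by rw [h'.mnm]
      _ = (N * M) * (N' * M) := by simp only [Matrix.mul_assoc]
      _ = (N * M)ᵀ * (N' * M)ᵀ := by rw [h'.nm_symm, h.nm_symm]
      _ = (N' * M * (N * M))ᵀ := by rw [← Matrix.transpose_mul]
      _ = (N' * (M * N * M))ᵀ := by simp only [Matrix.mul_assoc]
      _ = (N' * M)ᵀ := by rw [h.mnm]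
      _ = N' * M := h'.nm_symm
  calc N = N * M * N := h.nmn.symm
    _ = N' * M * N := by rw [e2]
    _ = N' * (M * N) := by rw [Matrix.mul_assoc]
    _ = N' * (M * N') := by rw [e1]
    _ = N' * M * N' := by rw [Matrix.mul_assoc]
    _ = N' := h'.nmn

theorem exists_isMoorePenrose {m n : ℕ} (M : Matrix (Fin m) (Fin n) ℝ) :
    ∃ N : Matrix (Fin n) (Fin m) ℝ, IsMoorePenrose M N := by
  have hH : (Mᵀ * M).IsHermitian := by
    have := isHermitian_conjTranspose_mul_self M
    simpa using this
  set H := Mᵀ * M with hHdef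
  set U : Matrix (Fin n) (Fin n) ℝ := (hH.eigenvectorUnitary : Matrix (Fin n) (Fin n) ℝ) with hU
  set L := hH.eigenvalues with hL
  have hUU : Uᵀ * U = 1 := by
    have := (Matrix.mem_unitaryGroup_iff').1 hH.eigenvectorUnitary.2
    simpa [Matrix.star_eq_conjTranspose] using this
  have hspec : H = U * diagonal L * Uᵀ := by
    have := hH.spectral_theorem
    simpa [Unitary.conjStarAlgAut_apply, Matrix.star_eq_conjTranspose, Function.comp_def] using this
  set G := U * diagonal (fun i => (L i)⁻¹) * Uᵀ with hG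
  have mul3 : ∀ a b : Fin n → ℝ, (U * diagonal a * Uᵀ) * (U * diagonal b * Uᵀ)
      = U * diagonal (fun i => a i * b i) * Uᵀ := by
    intro a b
    calc (U * diagonal a * Uᵀ) * (U * diagonal b * Uᵀ)
        = U * diagonal a * (Uᵀ * U) * diagonal b * Uᵀ := by simp only [Matrix.mul_assoc]
      _ = U * diagonal (fun i => a i * b i) * Uᵀ := by
        rw [hUU, Matrix.mul_one, Matrix.mul_assoc U, diagonal_mul_diagonal]
  have symm3 : ∀ a : Fin n → ℝ, (U * diagonal a * Uᵀ)ᵀ = U * diagonal a * Uᵀ := by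
    intro a
    simp only [Matrix.transpose_mul, Matrix.transpose_transpose, diagonal_transpose,
      Matrix.mul_assoc]
  have hGH : G * H = U * diagonal (fun i => (L i)⁻¹ * L i) * Uᵀ := by
    rw [hspec]; exact mul3 _ _
  have hHG : H * G = U * diagonal (fun i => L i * (L i)⁻¹) * Uᵀ := by
    rw [hspec]; exact mul3 _ _
  have hHGH : H * G * H = H := by
    rw [hHG, hspec, mul3]
    congr 2
    congr 1
    ext i
    rcases eq_or_ne (L i) 0 with h | h
    · simp [h]
    · field_simp
  have hGHG : G * H * G = G := by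
    rw [hGH, hG, mul3]
    congr 2
    congr 1
    ext i
    rcases eq_or_ne (L i) 0 with h | h
    · simp [h]
    · field_simp
  have hGT : Gᵀ = G := symm3 _
  have hGHT : (G * H)ᵀ = G * H := by rw [hGH]; exact symm3 _
  have hHT : Hᵀ = H := by rw [hHdef]; simp
  have hZ : M * (G * H) = M := by
    have h0 : H * (G * H - 1) = 0 := by
      rw [Matrix.mul_sub, Matrix.mul_one, ← Matrix.mul_assoc H G H, hHGH, sub_self]
    have h1 : (M * (G * H - 1))ᵀ * (M * (G * H - 1)) = 0 := by
      generalize G * H - 1 = Z at h0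
      calc (M * Z)ᵀ * (M * Z)
          = Zᵀ * ((Mᵀ * M) * Z) := by
            rw [Matrix.transpose_mul]; simp only [Matrix.mul_assoc]
        _ = 0 := by
            rw [← hHdef, h0, Matrix.mul_zero]
    have h2 : M * (G * H - 1) = 0 := by
      have := (Matrix.conjTranspose_mul_self_eq_zero (A := M * (G * H - 1))).1
      apply this
      simpa using h1
    rw [Matrix.mul_sub, Matrix.mul_one, sub_eq_zero] at h2
    exact h2
  refine ⟨G * Mᵀ, ?_, ?_, ?_, ?_⟩
  · calc M * (G * Mᵀ) * M = M * (G * H) := by rw [hHdef]; simp only [Matrix.mul_assoc]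
      _ = M := hZ
  · calc G * Mᵀ * M * (G * Mᵀ) = (G * H * G) * Mᵀ := by rw [hHdef]; simp only [Matrix.mul_assoc]
      _ = G * Mᵀ := by rw [hGHG]
  · simp only [Matrix.transpose_mul, Matrix.transpose_transpose, hGT, Matrix.mul_assoc]
  · calc (G * Mᵀ * M)ᵀ = (G * H)ᵀ := by rw [hHdef]; simp only [Matrix.mul_assoc]
      _ = G * H := hGHT
      _ = G * Mᵀ * M := by rw [hHdef]; simp only [Matrix.mul_assoc]

/-- The Moore-Penrose pseudoinverse of a real matrix: the unique matrix satisfying the four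
Penrose equations. -/
noncomputable def pinv {m n : ℕ} (M : Matrix (Fin m) (Fin n) ℝ) : Matrix (Fin n) (Fin m) ℝ :=
  (exists_isMoorePenrose M).choose

theorem pinv_spec {m n : ℕ} (M : Matrix (Fin m) (Fin n) ℝ) : IsMoorePenrose M (pinv M) :=
  (exists_isMoorePenrose M).choose_spec

/-- The randomized SVD approximation `(A S) (A S)⁺ A` of `A` with test matrix `S`. -/
noncomputable def rsvd {n d k : ℕ} (A : Matrix (Fin n) (Fin d) ℝ) (S : Matrix (Fin d) (Fin k) ℝ) :
    Matrix (Fin n) (Fin d) ℝ :=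
  (A * S) * pinv (A * S) * A

/-- The optimal rank-`r` error `‖A - A_r‖_F = min {‖A - B‖_F : rank B ≤ r}`. -/
noncomputable def bestErr {n d : ℕ} (A : Matrix (Fin n) (Fin d) ℝ) (r : ℕ) : ℝ :=
  sInf {e : ℝ | ∃ B : Matrix (Fin n) (Fin d) ℝ, B.rank ≤ r ∧ e = frob (A - B)}

/-- `S` (a random `d × k` matrix on the probability space `(W, P)`) is an oblivious subspace
injection with dimension `r`, injectivity `α` and failure probability `δ`. -/
structure IsOSI {W : Type} [MeasurableSpace W] (P : Measure W) {d k : ℕ}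
    (S : W → Matrix (Fin d) (Fin k) ℝ) (r : ℕ) (α δ : ℝ) : Prop where
  /-- `S` is a random matrix. -/
  measurable : ∀ i j, Measurable fun w => S w i j
  /-- the second moments exist -/
  integrable : ∀ x : Fin d → ℝ, Integrable (fun w => sqn ((S w)ᵀ *ᵥ x)) P
  /-- isotropy: `E ‖Sᵀ x‖² = ‖x‖²` -/
  isotropy : ∀ x : Fin d → ℝ, ∫ w, sqn ((S w)ᵀ *ᵥ x) ∂P = sqn x
  /-- injectivity on every fixed `r`-dimensional subspace, with probability at least `1 - δ` -/
  injectivity : ∀ V : Submodule ℝ (Fin d → ℝ), Module.finrank ℝ V = r →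
    1 - δ ≤ P.real {w | ∀ x ∈ V, α * sqn x ≤ sqn ((S w)ᵀ *ᵥ x)}

end Pool.Agent.H321R2.OSI
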