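import Mathlib

/-!
# Low-coherence centered vectors from quadratic polynomials over `ZMod p`
-/

namespace Pool.Agent.H321R2.OSI

open Finset

variable (p : ℕ) [hp : Fact p.Prime]

/-- centered indicator of the graph of `x ↦ a x² + b x + c`. -/
noncomputable def gvec (t : ZMod p × ZMod p × ZMod p) (u : ZMod p × ZMod p) : ℝ :=
  (if u.2 = t.1 * u.1 ^ 2 + t.2.1 * u.1 + t.2.2 then 1 else 0) - 1 / (p : ℝ)

/-- number of agreements -/
noncomputable def agree (t t' : ZMod p × ZMod p × ZMod p) : ℕ :=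
  (univ.filter fun x : ZMod p =>
    t.1 * x ^ 2 + t.2.1 * x + t.2.2 = t'.1 * x ^ 2 + t'.2.1 * x + t'.2.2).card

lemma gvec_inner (t t' : ZMod p × ZMod p × ZMod p) :
    ∑ u, gvec p t u * gvec p t' u = (agree p t t' : ℝ) - 1 := by
  have hp0 : (p : ℝ) ≠ 0 := by exact_mod_cast hp.out.ne_zero
  have hy : ∀ x : ZMod p, ∑ y : ZMod p, gvec p t (x, y) * gvec p t' (x, y) =
      (if t.1 * x ^ 2 + t.2.1 * x + t.2.2 = t'.1 * x ^ 2 + t'.2.1 * x + t'.2.2 then (1 : ℝ) else 0)
        - 1 / p := by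
    intro x
    simp only [gvec, sub_mul, mul_sub, sum_sub_distrib]
    have h1 : ∑ y : ZMod p, (if y = t.1 * x ^ 2 + t.2.1 * x + t.2.2 then (1 : ℝ) else 0) *
        (if y = t'.1 * x ^ 2 + t'.2.1 * x + t'.2.2 then (1 : ℝ) else 0) =
        if t.1 * x ^ 2 + t.2.1 * x + t.2.2 = t'.1 * x ^ 2 + t'.2.1 * x + t'.2.2 then (1 : ℝ)
          else 0 := by
      rw [sum_eq_single (t.1 * x ^ 2 + t.2.1 * x + t.2.2)]
      · simp
      · intro y _ hy
        rw [if_neg hy, zero_mul]
      · intro h; exact absurd (mem_univ _) h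
    rw [h1]
    simp only [← mul_sum, ← sum_mul, sum_ite_eq', mem_univ, if_true, sum_const, card_univ,
      ZMod.card, nsmul_eq_mul]
    field_simp
    ring
  rw [Fintype.sum_prod_type]
  simp only [hy, sum_sub_distrib, sum_const, card_univ, ZMod.card, nsmul_eq_mul]
  rw [agree, card_filter]
  push_cast
  rw [mul_one_div_cancel hp0]

lemma agree_self (t : ZMod p × ZMod p × ZMod p) : agree p t t = p := by
  simp [agree, ZMod.card]

lemma agree_le_two (t t' : ZMod p × ZMod p × ZMod p) (h : t ≠ t') : agree p t t' ≤ 2 := by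
  classical
  set q : Polynomial (ZMod p) := Polynomial.C (t.1 - t'.1) * Polynomial.X ^ 2 +
    Polynomial.C (t.2.1 - t'.2.1) * Polynomial.X + Polynomial.C (t.2.2 - t'.2.2) with hq
  have hq0 : q ≠ 0 := by
    intro h0
    apply h
    have c0 : q.coeff 0 = t.2.2 - t'.2.2 := by
      rw [hq]; simp only [Polynomial.coeff_add, Polynomial.coeff_C_mul, Polynomial.coeff_X_pow, Polynomial.coeff_X, Polynomial.coeff_C]; norm_num
    have c1 : q.coeff 1 = t.2.1 - t'.2.1 := by
      rw [hq]; simp only [Polynomial.coeff_add, Polynomial.coeff_C_mul, Polynomial.coeff_X_pow, Polynomial.coeff_X, Polynomial.coeff_C]; norm_num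
    have c2 : q.coeff 2 = t.1 - t'.1 := by
      rw [hq]; simp only [Polynomial.coeff_add, Polynomial.coeff_C_mul, Polynomial.coeff_X_pow, Polynomial.coeff_X, Polynomial.coeff_C]; norm_num
    rw [h0] at c0 c1 c2
    simp only [Polynomial.coeff_zero] at c0 c1 c2
    refine Prod.ext ?_ (Prod.ext ?_ ?_)
    · exact (sub_eq_zero.1 c2.symm)
    · exact (sub_eq_zero.1 c1.symm)
    · exact (sub_eq_zero.1 c0.symm)
  have hdeg : q.natDegree ≤ 2 := Polynomial.natDegree_quadratic_le
  have hsub : (univ.filter fun x : ZMod p =>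
      t.1 * x ^ 2 + t.2.1 * x + t.2.2 = t'.1 * x ^ 2 + t'.2.1 * x + t'.2.2) ⊆
      q.roots.toFinset := by
    intro x hx
    rw [mem_filter] at hx
    rw [Multiset.mem_toFinset, Polynomial.mem_roots hq0, Polynomial.IsRoot.def, hq]
    simp only [Polynomial.eval_add, Polynomial.eval_mul, Polynomial.eval_C, Polynomial.eval_pow,
      Polynomial.eval_X]
    linear_combination hx.2
  calc agree p t t' ≤ q.roots.toFinset.card := card_le_card hsub
    _ ≤ Multiset.card q.roots := Multiset.toFinset_card_le _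
    _ ≤ q.natDegree := Polynomial.card_roots' _
    _ ≤ 2 := hdeg

lemma gvec_sum (u : ZMod p × ZMod p) : ∑ t, gvec p t u = 0 := by
  have hp0 : (p : ℝ) ≠ 0 := by exact_mod_cast hp.out.ne_zero
  rw [Fintype.sum_prod_type]
  refine sum_eq_zero fun a _ => ?_
  rw [Fintype.sum_prod_type]
  refine sum_eq_zero fun b _ => ?_
  simp only [gvec, sum_sub_distrib, sum_const, card_univ, ZMod.card, nsmul_eq_mul]
  have : ∀ c : ZMod p, (u.2 = a * u.1 ^ 2 + b * u.1 + c) ↔ (u.2 - a * u.1 ^ 2 - b * u.1 = c) := by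
    intro c
    constructor
    · intro h; rw [h]; ring
    · intro h; rw [← h]; ring
  simp only [this, sum_ite_eq, mem_univ, if_true]
  rw [mul_one_div_cancel hp0, sub_self]

lemma exists_lowcoh : ∃ w : Fin (p ^ 3) → Fin (p ^ 2) → ℝ,
    (∀ j, ∑ i, w j i * w j i = 1) ∧
    (∀ j l, j ≠ l → |∑ i, w j i * w l i| ≤ 1 / ((p : ℝ) - 1)) ∧
    ∀ i, ∑ j, w j i = 0 := by
  have hp1 : (0 : ℝ) < (p : ℝ) - 1 := by
    have : (1 : ℝ) < p := by exact_mod_cast hp.out.one_lt
    linarith
  have hT : Fintype.card (ZMod p × ZMod p × ZMod p) = p ^ 3 := by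
    simp only [Fintype.card_prod, ZMod.card]; ring
  have hU : Fintype.card (ZMod p × ZMod p) = p ^ 2 := by
    simp only [Fintype.card_prod, ZMod.card]; ring
  let e : Fin (p ^ 3) ≃ (ZMod p × ZMod p × ZMod p) := (Fintype.equivFinOfCardEq hT).symm
  let f : Fin (p ^ 2) ≃ (ZMod p × ZMod p) := (Fintype.equivFinOfCardEq hU).symm
  have hsq : Real.sqrt ((p : ℝ) - 1) * Real.sqrt ((p : ℝ) - 1) = (p : ℝ) - 1 :=
    Real.mul_self_sqrt hp1.le
  have hinner : ∀ j l, ∑ i, (gvec p (e j) (f i) / Real.sqrt ((p : ℝ) - 1)) *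
      (gvec p (e l) (f i) / Real.sqrt ((p : ℝ) - 1)) =
      ((agree p (e j) (e l) : ℝ) - 1) / ((p : ℝ) - 1) := by
    intro j l
    rw [← gvec_inner, ← Equiv.sum_comp f, sum_div]
    refine sum_congr rfl fun i _ => ?_
    rw [div_mul_div_comm, hsq]
  refine ⟨fun j i => gvec p (e j) (f i) / Real.sqrt ((p : ℝ) - 1), ?_, ?_, ?_⟩
  · intro j
    rw [hinner, agree_self, div_self hp1.ne']
  · intro j l hjl
    rw [hinner]
    have h1 : agree p (e j) (e l) ≤ 2 := agree_le_two p _ _ (fun h => hjl (e.injective h))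
    have h2 : (agree p (e j) (e l) : ℝ) ≤ 2 := by exact_mod_cast h1
    have h3 : (0 : ℝ) ≤ (agree p (e j) (e l) : ℝ) := Nat.cast_nonneg _
    rw [abs_div, abs_of_pos hp1]
    apply div_le_div_of_nonneg_right _ hp1.le
    rw [abs_le]
    constructor <;> linarith
  · intro i
    rw [← sum_div]
    have : ∑ j, gvec p (e j) (f i) = 0 := by
      rw [← gvec_sum p (f i), ← Equiv.sum_comp e]
    rw [this, zero_div]

end Pool.Agent.H321R2.OSI
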