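import Mathlib

/-!
# First and second moments of quadratic forms in independent random signs
-/

namespace Pool.Agent.H321R2.OSI

open Finset

/-- the sign of a Boolean -/
noncomputable def sg (b : Bool) : ℝ := if b then 1 else -1

lemma sg_not (b : Bool) : sg (!b) = - sg b := by
  cases b <;> simp [sg]

lemma sg_mul_self (b : Bool) : sg b * sg b = 1 := by
  cases b <;> simp [sg]

variable {n : ℕ}

/-- flip the sign of coordinate `j` -/
def flp (j : Fin n) : (Fin n → Bool) ≃ (Fin n → Bool) where
  toFun D := Function.update D j (!D j)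
  invFun D := Function.update D j (!D j)
  left_inv D := by
    ext i
    by_cases h : i = j
    · subst h; simp
    · simp [Function.update_of_ne h]
  right_inv D := by
    ext i
    by_cases h : i = j
    · subst h; simp
    · simp [Function.update_of_ne h]

lemma sg_flp_same (j : Fin n) (D : Fin n → Bool) : sg (flp j D j) = - sg (D j) := by
  simp [flp, sg_not]

lemma sg_flp_ne (j i : Fin n) (D : Fin n → Bool) (h : i ≠ j) : sg (flp j D i) = sg (D i) := by
  simp [flp, Function.update_of_ne h]

lemma sum_odd (j : Fin n) (g : (Fin n → Bool) → ℝ) (hg : ∀ D, g (flp j D) = - g D) :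
    ∑ D, g D = 0 := by
  have h1 : ∑ D, g (flp j D) = ∑ D, g D := Equiv.sum_comp (flp j) g
  simp only [hg, sum_neg_distrib] at h1
  linarith

lemma sum_pair_zero (a b : Fin n) (h : a ≠ b) :
    ∑ D : Fin n → Bool, sg (D a) * sg (D b) = 0 := by
  refine sum_odd a _ fun D => ?_
  rw [sg_flp_same, sg_flp_ne a b D h.symm]
  ring

lemma sum_quad (a b c d : Fin n) (hab : a ≠ b) (hcd : c ≠ d) :
    ∑ D : Fin n → Bool, (sg (D a) * sg (D b)) * (sg (D c) * sg (D d)) =
      (Fintype.card (Fin n → Bool) : ℝ) * ((if a = c ∧ b = d then 1 else 0) +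
        (if a = d ∧ b = c then 1 else 0)) := by
  by_cases h1 : a = c ∧ b = d
  · obtain ⟨rfl, rfl⟩ := h1
    have h2 : ¬ (a = b ∧ b = a) := fun h => hab h.1
    rw [if_pos ⟨rfl, rfl⟩, if_neg h2]
    have : ∀ D : Fin n → Bool, (sg (D a) * sg (D b)) * (sg (D a) * sg (D b)) = 1 := by
      intro D
      have := sg_mul_self (D a)
      have := sg_mul_self (D b)
      calc (sg (D a) * sg (D b)) * (sg (D a) * sg (D b))
          = (sg (D a) * sg (D a)) * (sg (D b) * sg (D b)) := by ring
        _ = 1 := by rw [sg_mul_self, sg_mul_self]; ring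
    simp [this]
  · by_cases h2 : a = d ∧ b = c
    · obtain ⟨rfl, rfl⟩ := h2
      rw [if_neg h1, if_pos ⟨rfl, rfl⟩]
      have : ∀ D : Fin n → Bool, (sg (D a) * sg (D b)) * (sg (D b) * sg (D a)) = 1 := by
        intro D
        calc (sg (D a) * sg (D b)) * (sg (D b) * sg (D a))
            = (sg (D a) * sg (D a)) * (sg (D b) * sg (D b)) := by ring
          _ = 1 := by rw [sg_mul_self, sg_mul_self]; ring
      simp [this]
    · rw [if_neg h1, if_neg h2, add_zero, mul_zero]
      by_cases hac : a = c
      · subst hac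
        have hbd : b ≠ d := fun h => h1 ⟨rfl, h⟩
        refine sum_odd b _ fun D => ?_
        rw [sg_flp_same, sg_flp_ne b a D hab, sg_flp_ne b d D hbd.symm]
        ring
      · by_cases had : a = d
        · subst had
          have hbc : b ≠ c := fun h => h2 ⟨rfl, h⟩
          refine sum_odd b _ fun D => ?_
          rw [sg_flp_same, sg_flp_ne b a D hab, sg_flp_ne b c D hbc.symm]
          ring
        · refine sum_odd a _ fun D => ?_
          rw [sg_flp_same, sg_flp_ne a b D hab.symm, sg_flp_ne a c D (fun h => hac h.symm),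
            sg_flp_ne a d D (fun h => had h.symm)]
          ring

/-- Second moment of an off-diagonal symmetric quadratic form in random signs. -/
lemma second_moment (c : Fin n → Fin n → ℝ) (h0 : ∀ i, c i i = 0) (hs : ∀ i j, c i j = c j i) :
    ∑ D : Fin n → Bool, (∑ i, ∑ j, c i j * (sg (D i) * sg (D j))) ^ 2 =
      2 * (Fintype.card (Fin n → Bool) : ℝ) * ∑ i, ∑ j, c i j ^ 2 := by
  have e1 : ∀ D : Fin n → Bool, (∑ i, ∑ j, c i j * (sg (D i) * sg (D j))) ^ 2 =
      ∑ a : Fin n × Fin n, ∑ b : Fin n × Fin n, (c a.1 a.2 * c b.1 b.2) *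
        ((sg (D a.1) * sg (D a.2)) * (sg (D b.1) * sg (D b.2))) := by
    intro D
    rw [← Fintype.sum_prod_type' (f := fun i j => c i j * (sg (D i) * sg (D j))), sq,
      Finset.sum_mul_sum]
    refine sum_congr rfl fun a _ => sum_congr rfl fun b _ => ?_
    ring
  simp only [e1]
  rw [sum_comm]
  have e2 : ∀ a : Fin n × Fin n, ∑ D : Fin n → Bool, ∑ b : Fin n × Fin n,
      (c a.1 a.2 * c b.1 b.2) * ((sg (D a.1) * sg (D a.2)) * (sg (D b.1) * sg (D b.2))) =
      2 * (Fintype.card (Fin n → Bool) : ℝ) * c a.1 a.2 ^ 2 := by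
    intro a
    rw [sum_comm]
    have e3 : ∀ b : Fin n × Fin n, ∑ D : Fin n → Bool,
        (c a.1 a.2 * c b.1 b.2) * ((sg (D a.1) * sg (D a.2)) * (sg (D b.1) * sg (D b.2))) =
        (Fintype.card (Fin n → Bool) : ℝ) * ((if b = a then c a.1 a.2 ^ 2 else 0) +
          (if b = (a.2, a.1) then c a.1 a.2 ^ 2 else 0)) := by
      intro b
      rw [← mul_sum]
      by_cases ha : a.1 = a.2
      · have : c a.1 a.2 = 0 := by rw [ha]; exact h0 _
        simp [this]
      · by_cases hb : b.1 = b.2
        · have hc : c b.1 b.2 = 0 := by rw [hb]; exact h0 _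
          have n1 : b ≠ a := by rintro rfl; exact ha hb
          have n2 : b ≠ (a.2, a.1) := by
            rintro rfl
            exact ha hb.symm
          simp [hc, n1, n2]
        · rw [sum_quad _ _ _ _ ha hb]
          have i1 : (a.1 = b.1 ∧ a.2 = b.2) ↔ b = a := by
            constructor
            · rintro ⟨h1, h2⟩; exact Prod.ext h1.symm h2.symm
            · rintro rfl; exact ⟨rfl, rfl⟩
          have i2 : (a.1 = b.2 ∧ a.2 = b.1) ↔ b = (a.2, a.1) := by
            constructor
            · rintro ⟨h1, h2⟩; exact Prod.ext h2.symm h1.symm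
            · rintro rfl; exact ⟨rfl, rfl⟩
          simp only [i1, i2]
          by_cases k1 : b = a
          · have k2 : b ≠ (a.2, a.1) := by
              rw [k1]
              intro h
              have := congrArg Prod.fst h
              exact ha this
            rw [if_pos k1, if_neg k2, if_pos k1, if_neg k2, k1]
            ring
          · by_cases k2 : b = (a.2, a.1)
            · rw [if_neg k1, if_pos k2, if_neg k1, if_pos k2, k2]
              simp only
              rw [hs a.2 a.1]
              ring
            · rw [if_neg k1, if_neg k2, if_neg k1, if_neg k2]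
              ring
    simp only [e3]
    rw [← mul_sum, sum_add_distrib]
    simp only [sum_ite_eq', mem_univ, if_true]
    ring
  rw [← Fintype.sum_prod_type' (f := fun i j => c i j ^ 2), mul_sum]
  refine sum_congr rfl fun a _ => ?_
  exact e2 a

/-- First moment. -/
lemma first_moment (c : Fin n → Fin n → ℝ) (h0 : ∀ i, c i i = 0) :
    ∑ D : Fin n → Bool, (∑ i, ∑ j, c i j * (sg (D i) * sg (D j))) = 0 := by
  rw [sum_comm]
  refine sum_eq_zero fun i _ => ?_
  rw [sum_comm]
  refine sum_eq_zero fun j _ => ?_
  rw [← mul_sum]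
  by_cases h : i = j
  · subst h; rw [h0, zero_mul]
  · rw [sum_pair_zero i j h, mul_zero]

end Pool.Agent.H321R2.OSI
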