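import Mathlib

/-! # Uniform probability on a finite type -/

namespace Pool.Agent.H321R2.OSI

open MeasureTheory Finset

variable (W : Type) [Fintype W] [Nonempty W] [MeasurableSpace W] [MeasurableSingletonClass W]

/-- uniform probability measure -/
noncomputable def unif : Measure W := (PMF.uniformOfFintype W).toMeasure

instance : IsProbabilityMeasure (unif W) := by unfold unif; infer_instance

lemma unif_integral (f : W → ℝ) : ∫ w, f w ∂(unif W) = (∑ w, f w) / Fintype.card W := by
  unfold unif
  rw [PMF.integral_eq_sum]
  simp only [PMF.uniformOfFintype_apply, ENNReal.toReal_inv, ENNReal.toReal_natCast, smul_eq_mul]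
  rw [← mul_sum, div_eq_inv_mul]

lemma unif_real (s : Set W) [DecidablePred (· ∈ s)] :
    (unif W).real s = ((univ.filter (· ∈ s)).card : ℝ) / Fintype.card W := by
  unfold unif
  rw [Measure.real, PMF.toMeasure_uniformOfFintype_apply _ (Set.toFinite s).measurableSet,
    ENNReal.toReal_div, ENNReal.toReal_natCast, ENNReal.toReal_natCast, Fintype.card_subtype]

/-- Probability lower bound from a bound on the size of the bad set. -/
lemma unif_real_ge (s : Set W) (bad : Finset W) (h : ∀ w, w ∉ bad → w ∈ s) (δ : ℝ)
    (hb : (bad.card : ℝ) ≤ δ * Fintype.card W) : 1 - δ ≤ (unif W).real s := by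
  classical
  rw [unif_real]
  have hW : (0 : ℝ) < Fintype.card W := by exact_mod_cast Fintype.card_pos
  rw [le_div_iff₀ hW]
  have h1 : (Fintype.card W : ℝ) ≤ ((univ.filter (· ∈ s)).card : ℝ) + bad.card := by
    have h2 : Fintype.card W ≤ (univ.filter (· ∈ s)).card + bad.card := by
      rw [← Finset.card_univ]
      refine (card_le_card (t := univ.filter (· ∈ s) ∪ bad) ?_).trans (card_union_le _ _)
      intro w _
      rw [mem_union, mem_filter]
      by_cases hw : w ∈ bad
      · exact Or.inr hw
      · exact Or.inl ⟨mem_univ _, h w hw⟩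
    exact_mod_cast h2
  linarith

end Pool.Agent.H321R2.OSI
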