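import Mathlib
import Pool.Agent.H321R2.OSI.Defs
import Pool.Agent.H321R2.OSI.LowCoh
import Pool.Agent.H321R2.OSI.Signs
import Pool.Agent.H321R2.OSI.Unif

/-!
# An oblivious subspace injection for which the randomized SVD has constant relative excess error
-/

namespace Pool.Agent.H321R2.OSI

open MeasureTheory Matrix Finset

variable {N k K n m : ℕ}

/-- Gram matrix of the rows of `b`. -/
noncomputable def gram (b : Fin n → Fin m → ℝ) (j l : Fin n) : ℝ := ∑ i, b j i * b l i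

lemma gram_symm (b : Fin n → Fin m → ℝ) (j l : Fin n) : gram b j l = gram b l j := by
  unfold gram
  exact sum_congr rfl fun i _ => mul_comm _ _

/-- off-diagonal coefficients -/
noncomputable def offc (b : Fin n → Fin m → ℝ) (x : Fin n → ℝ) (i j : Fin n) : ℝ :=
  if i = j then 0 else x i * x j * gram b i j

lemma quad_expand (b : Fin n → Fin m → ℝ) (hb : ∀ j, gram b j j = 1) (D : Fin n → Bool)
    (x : Fin n → ℝ) :
    ∑ l, (∑ j, (sg (D j) * b j l) * x j) ^ 2 =
      sqn x + ∑ i, ∑ j, offc b x i j * (sg (D i) * sg (D j)) := by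
  have e1 : ∑ l, (∑ j, (sg (D j) * b j l) * x j) ^ 2 =
      ∑ i, ∑ j, (x i * x j * gram b i j) * (sg (D i) * sg (D j)) := by
    have : ∀ l, (∑ j, (sg (D j) * b j l) * x j) ^ 2 =
        ∑ i, ∑ j, (x i * x j * (b i l * b j l)) * (sg (D i) * sg (D j)) := by
      intro l
      rw [sq, Finset.sum_mul_sum]
      refine sum_congr rfl fun i _ => sum_congr rfl fun j _ => ?_
      ring
    simp only [this]
    rw [sum_comm]
    refine sum_congr rfl fun i _ => ?_
    rw [sum_comm]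
    refine sum_congr rfl fun j _ => ?_
    rw [← sum_mul, ← mul_sum]
    rfl
  have e2 : ∀ i j, (x i * x j * gram b i j) * (sg (D i) * sg (D j)) =
      (if i = j then x i ^ 2 else 0) + offc b x i j * (sg (D i) * sg (D j)) := by
    intro i j
    unfold offc
    by_cases h : i = j
    · subst h
      rw [if_pos rfl, if_pos rfl, hb, sg_mul_self]
      ring
    · rw [if_neg h, if_neg h]
      ring
  rw [e1]
  simp only [e2, sum_add_distrib, sum_ite_eq, mem_univ, if_true]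
  rfl

/-- the sign-and-failure sample space -/
abbrev Smp (K n : ℕ) : Type := Fin K × (Fin n → Bool)

/-- The random test matrix. -/
noncomputable def Smat (K : ℕ) (b : Fin n → Fin m → ℝ) (w : Smp K n) :
    Matrix (Fin n) (Fin m) ℝ :=
  Matrix.of fun j l => if (w.1 : ℕ) = 0 then 0
    else Real.sqrt ((K : ℝ) / ((K : ℝ) - 1)) * (sg (w.2 j) * b j l)

lemma Smat_zero (b : Fin n → Fin m → ℝ) (w : Smp K n) (h : (w.1 : ℕ) = 0) :
    Smat K b w = 0 := by
  ext j l
  simp [Smat, h]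

lemma sqn_Smat_zero (b : Fin n → Fin m → ℝ) (w : Smp K n) (h : (w.1 : ℕ) = 0)
    (x : Fin n → ℝ) : sqn ((Smat K b w)ᵀ *ᵥ x) = 0 := by
  rw [Smat_zero b w h]
  simp [sqn]

lemma sqn_Smat (hK : 2 ≤ K) (b : Fin n → Fin m → ℝ) (hb : ∀ j, gram b j j = 1) (w : Smp K n)
    (h : (w.1 : ℕ) ≠ 0) (x : Fin n → ℝ) :
    sqn ((Smat K b w)ᵀ *ᵥ x) = ((K : ℝ) / ((K : ℝ) - 1)) *
      (sqn x + ∑ i, ∑ j, offc b x i j * (sg (w.2 i) * sg (w.2 j))) := by
  have hK' : (0 : ℝ) < (K : ℝ) - 1 := by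
    have : (2 : ℝ) ≤ K := by exact_mod_cast hK
    linarith
  have hq : 0 ≤ (K : ℝ) / ((K : ℝ) - 1) := by positivity
  rw [← quad_expand b hb w.2 x, mul_sum]
  unfold sqn
  refine sum_congr rfl fun l _ => ?_
  have : ((Smat K b w)ᵀ *ᵥ x) l = Real.sqrt ((K : ℝ) / ((K : ℝ) - 1)) *
      ∑ j, (sg (w.2 j) * b j l) * x j := by
    rw [Matrix.mulVec, dotProduct, mul_sum]
    refine sum_congr rfl fun j _ => ?_
    simp only [Smat, Matrix.transpose_apply, Matrix.of_apply, if_neg h]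
    ring
  rw [this, mul_pow, Real.sq_sqrt hq]

lemma card_Smp (K n : ℕ) : (Fintype.card (Smp K n) : ℝ) = K * (Fintype.card (Fin n → Bool) : ℝ) := by
  rw [Fintype.card_prod, Fintype.card_fin]; push_cast; ring

lemma sum_Smp_isotropy (hK : 2 ≤ K) (b : Fin n → Fin m → ℝ) (hb : ∀ j, gram b j j = 1)
    (x : Fin n → ℝ) :
    ∑ w : Smp K n, sqn ((Smat K b w)ᵀ *ᵥ x) = (Fintype.card (Smp K n) : ℝ) * sqn x := by
  have hK' : (0 : ℝ) < (K : ℝ) - 1 := by
    have : (2 : ℝ) ≤ K := by exact_mod_cast hK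
    linarith
  obtain ⟨K', rfl⟩ : ∃ K', K = K' + 1 := ⟨K - 1, by omega⟩
  rw [card_Smp, Fintype.sum_prod_type, Fin.sum_univ_succ]
  have h0 : ∑ D : Fin n → Bool, sqn ((Smat (K' + 1) b ((0 : Fin (K' + 1)), D))ᵀ *ᵥ x) = 0 :=
    sum_eq_zero fun D _ => sqn_Smat_zero b _ rfl x
  rw [h0, zero_add]
  have h1 : ∀ i : Fin K', ∑ D : Fin n → Bool, sqn ((Smat (K' + 1) b (i.succ, D))ᵀ *ᵥ x) =
      (((K' + 1 : ℕ) : ℝ) / (((K' + 1 : ℕ) : ℝ) - 1)) *
        ((Fintype.card (Fin n → Bool) : ℝ) * sqn x) := by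
    intro i
    have : ∀ D : Fin n → Bool, sqn ((Smat (K' + 1) b (i.succ, D))ᵀ *ᵥ x) =
        (((K' + 1 : ℕ) : ℝ) / (((K' + 1 : ℕ) : ℝ) - 1)) *
          (sqn x + ∑ i, ∑ j, offc b x i j * (sg (D i) * sg (D j))) := by
      intro D
      exact sqn_Smat hK b hb (i.succ, D) (by simp) x
    simp only [this]
    rw [← mul_sum, sum_add_distrib, first_moment (offc b x) (fun i => by simp [offc]), add_zero]
    simp
  simp only [h1, sum_const, card_univ, Fintype.card_fin, nsmul_eq_mul]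
  have h2 : ((K' + 1 : ℕ) : ℝ) - 1 = (K' : ℝ) := by push_cast; ring
  rw [h2] at hK' ⊢
  field_simp

lemma sum_offc_sq (b : Fin n → Fin m → ℝ) (μ : ℝ)
    (hμ : ∀ j l, j ≠ l → |gram b j l| ≤ μ) (x : Fin n → ℝ) :
    ∑ i, ∑ j, offc b x i j ^ 2 ≤ μ ^ 2 * sqn x ^ 2 := by
  have h1 : ∀ i j, offc b x i j ^ 2 ≤ μ ^ 2 * (x i ^ 2 * x j ^ 2) := by
    intro i j
    unfold offc
    by_cases h : i = j
    · rw [if_pos h]
      have : 0 ≤ μ ^ 2 * (x i ^ 2 * x j ^ 2) := by positivity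
      simpa using this
    · rw [if_neg h]
      have h2 : gram b i j ^ 2 ≤ μ ^ 2 := by
        rw [← sq_abs (gram b i j)]
        exact pow_le_pow_left₀ (abs_nonneg _) (hμ i j h) 2
      calc (x i * x j * gram b i j) ^ 2 = (x i ^ 2 * x j ^ 2) * gram b i j ^ 2 := by ring
        _ ≤ (x i ^ 2 * x j ^ 2) * μ ^ 2 := by
            exact mul_le_mul_of_nonneg_left h2 (by positivity)
        _ = μ ^ 2 * (x i ^ 2 * x j ^ 2) := by ring
  calc ∑ i, ∑ j, offc b x i j ^ 2 ≤ ∑ i, ∑ j, μ ^ 2 * (x i ^ 2 * x j ^ 2) :=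
        sum_le_sum fun i _ => sum_le_sum fun j _ => h1 i j
    _ = μ ^ 2 * sqn x ^ 2 := by
        unfold sqn
        rw [sq (∑ i, x i ^ 2), Finset.sum_mul_sum, mul_sum]
        exact sum_congr rfl fun i _ => by rw [mul_sum]

/-- Chebyshev: few sign patterns are bad for a given vector. -/
lemma card_bad (hK : 2 ≤ K) (b : Fin n → Fin m → ℝ) (hb : ∀ j, gram b j j = 1) (μ : ℝ)
    (hμ : ∀ j l, j ≠ l → |gram b j l| ≤ μ) (hμK : 2 * μ ^ 2 * (K : ℝ) ^ 3 ≤ 1)
    (x : Fin n → ℝ) (hx : 0 < sqn x) :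
    ((univ.filter fun D : Fin n → Bool => ((K : ℝ) / ((K : ℝ) - 1)) *
      (sqn x + ∑ i, ∑ j, offc b x i j * (sg (D i) * sg (D j))) < sqn x).card : ℝ) * K ≤
      (Fintype.card (Fin n → Bool) : ℝ) := by
  classical
  set q := sqn x with hq
  set Q : (Fin n → Bool) → ℝ := fun D => ∑ i, ∑ j, offc b x i j * (sg (D i) * sg (D j)) with hQ
  have hKr : (2 : ℝ) ≤ K := by exact_mod_cast hK
  have hK' : (0 : ℝ) < (K : ℝ) - 1 := by linarith
  set B := univ.filter fun D : Fin n → Bool => ((K : ℝ) / ((K : ℝ) - 1)) * (q + Q D) < q with hB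
  have hmem : ∀ D ∈ B, (q / K) ^ 2 ≤ Q D ^ 2 := by
    intro D hD
    have h1 : ((K : ℝ) / ((K : ℝ) - 1)) * (q + Q D) < q := (mem_filter.1 hD).2
    have h2 : (K : ℝ) * (q + Q D) < q * ((K : ℝ) - 1) := by
      rw [div_mul_eq_mul_div, div_lt_iff₀ hK'] at h1
      exact h1
    have h3 : (K : ℝ) * Q D < - q := by nlinarith
    have h4 : q / K < - Q D := by
      rw [div_lt_iff₀ (by linarith)]
      nlinarith
    have h5 : 0 ≤ q / K := by positivity
    calc (q / K) ^ 2 ≤ (- Q D) ^ 2 := pow_le_pow_left₀ h5 h4.le 2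
      _ = Q D ^ 2 := by ring
  have hsum : (B.card : ℝ) * (q / K) ^ 2 ≤ ∑ D, Q D ^ 2 := by
    calc (B.card : ℝ) * (q / K) ^ 2 = ∑ _D ∈ B, (q / K) ^ 2 := by
          rw [sum_const, nsmul_eq_mul]
      _ ≤ ∑ D ∈ B, Q D ^ 2 := sum_le_sum hmem
      _ ≤ ∑ D, Q D ^ 2 := sum_le_sum_of_subset_of_nonneg (subset_univ _)
          (fun _ _ _ => sq_nonneg _)
  have h2m : ∑ D, Q D ^ 2 ≤ 2 * (Fintype.card (Fin n → Bool) : ℝ) * (μ ^ 2 * q ^ 2) := by
    rw [hQ]
    simp only
    rw [second_moment (offc b x) (fun i => by simp [offc]) (fun i j => by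
      unfold offc
      by_cases h : i = j
      · rw [if_pos h, if_pos h.symm]
      · rw [if_neg h, if_neg (fun h' => h h'.symm), gram_symm]
        ring)]
    exact mul_le_mul_of_nonneg_left (sum_offc_sq b μ hμ x) (by positivity)
  have h6 := hsum.trans h2m
  have hq2 : 0 < q ^ 2 := by positivity
  have hKpos : (0 : ℝ) < K := by linarith
  rw [div_pow, mul_div_assoc', div_le_iff₀ (by positivity)] at h6
  have h7 : (B.card : ℝ) ≤ 2 * (Fintype.card (Fin n → Bool) : ℝ) * μ ^ 2 * (K : ℝ) ^ 2 := by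
    have : (B.card : ℝ) * q ^ 2 ≤
        (2 * (Fintype.card (Fin n → Bool) : ℝ) * μ ^ 2 * (K : ℝ) ^ 2) * q ^ 2 := by
      calc (B.card : ℝ) * q ^ 2 ≤ 2 * (Fintype.card (Fin n → Bool) : ℝ) * (μ ^ 2 * q ^ 2) *
            (K : ℝ) ^ 2 := h6
        _ = (2 * (Fintype.card (Fin n → Bool) : ℝ) * μ ^ 2 * (K : ℝ) ^ 2) * q ^ 2 := by ring
    exact le_of_mul_le_mul_right this hq2
  calc (B.card : ℝ) * K ≤ (2 * (Fintype.card (Fin n → Bool) : ℝ) * μ ^ 2 * (K : ℝ) ^ 2) * K :=
        mul_le_mul_of_nonneg_right h7 hKpos.le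
    _ = (2 * μ ^ 2 * (K : ℝ) ^ 3) * (Fintype.card (Fin n → Bool) : ℝ) := by ring
    _ ≤ 1 * (Fintype.card (Fin n → Bool) : ℝ) :=
        mul_le_mul_of_nonneg_right hμK (by positivity)
    _ = _ := one_mul _

instance nonempty_Smp (K n : ℕ) [NeZero K] : Nonempty (Smp K n) := inferInstance

lemma sqn_smul (c : ℝ) (x : Fin n → ℝ) : sqn (c • x) = c ^ 2 * sqn x := by
  unfold sqn
  rw [mul_sum]
  refine sum_congr rfl fun i _ => ?_
  simp [mul_pow]

/-- The random matrix `Smat` is an OSI of dimension 1 with injectivity `1` (hence any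
`1 - ε`). -/
lemma isOSI_Smat [NeZero K] (hK : 2 ≤ K) (b : Fin n → Fin m → ℝ) (hb : ∀ j, gram b j j = 1)
    (μ : ℝ) (hμ : ∀ j l, j ≠ l → |gram b j l| ≤ μ) (hμK : 2 * μ ^ 2 * (K : ℝ) ^ 3 ≤ 1)
    (δ : ℝ) (hδ : 2 ≤ δ * K) (ε : ℝ) (hε : 0 ≤ ε) :
    IsOSI (unif (Smp K n)) (Smat K b) 1 (1 - ε) δ where
  measurable i j := measurable_of_finite _
  integrable x := Integrable.of_finite
  isotropy x := by
    rw [unif_integral, sum_Smp_isotropy hK b hb x, mul_div_assoc, mul_comm, div_mul_cancel₀]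
    have : (0 : ℝ) < Fintype.card (Smp K n) := by exact_mod_cast Fintype.card_pos
    exact this.ne'
  injectivity V hV := by
    classical
    obtain ⟨v, hv0, hv⟩ := finrank_eq_one_iff'.1 hV
    set x : Fin n → ℝ := (v : Fin n → ℝ) with hx
    have hxne : x ≠ 0 := by
      intro h
      apply hv0
      exact Subtype.ext h
    have hxpos : 0 < sqn x := by
      unfold sqn
      have : ∃ i, x i ≠ 0 := by
        by_contra hcon
        push Not at hcon
        exact hxne (funext hcon)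
      obtain ⟨i, hi⟩ := this
      exact sum_pos' (fun _ _ => sq_nonneg _) ⟨i, mem_univ _, by positivity⟩
    set BD := univ.filter fun D : Fin n → Bool => ((K : ℝ) / ((K : ℝ) - 1)) *
      (sqn x + ∑ i, ∑ j, offc b x i j * (sg (D i) * sg (D j))) < sqn x with hBD
    set bad : Finset (Smp K n) := (({(0 : Fin K)} : Finset (Fin K)) ×ˢ (univ : Finset (Fin n → Bool)))
      ∪ ((univ : Finset (Fin K)) ×ˢ BD) with hbad
    have hKpos : (0 : ℝ) < K := by
      have : (2 : ℝ) ≤ K := by exact_mod_cast hK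
      linarith
    refine unif_real_ge _ _ bad ?_ δ ?_
    · intro w hw
      rw [hbad, mem_union, mem_product, mem_product] at hw
      push Not at hw
      have h1 : (w.1 : ℕ) ≠ 0 := by
        intro h
        apply hw.1
        · rw [mem_singleton]
          exact Fin.ext (by simpa using h)
        · exact mem_univ _
      have h2 : w.2 ∉ BD := hw.2 (mem_univ _)
      have h3 : sqn x ≤ sqn ((Smat K b w)ᵀ *ᵥ x) := by
        rw [sqn_Smat hK b hb w h1 x]
        rw [hBD, mem_filter] at h2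
        push Not at h2
        exact h2 (mem_univ _)
      rw [Set.mem_ofPred_eq]
      intro y hy
      obtain ⟨c, hc⟩ := hv ⟨y, hy⟩
      have hyc : y = c • x := by
        have := congrArg Subtype.val hc
        simpa using this.symm
      rw [hyc, Matrix.mulVec_smul, sqn_smul, sqn_smul]
      have hc2 : 0 ≤ c ^ 2 := sq_nonneg c
      have h4 : c ^ 2 * sqn x ≤ c ^ 2 * sqn ((Smat K b w)ᵀ *ᵥ x) :=
        mul_le_mul_of_nonneg_left h3 hc2
      have h5 : 0 ≤ ε * (c ^ 2 * sqn x) := by positivity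
      nlinarith
    · have hc1 : (bad.card : ℝ) ≤ (Fintype.card (Fin n → Bool) : ℝ) + K * (BD.card : ℝ) := by
        have : bad.card ≤ Fintype.card (Fin n → Bool) + K * BD.card := by
          refine (card_union_le _ _).trans ?_
          rw [card_product, card_product]
          simp
        exact_mod_cast this
      have hc2 := card_bad hK b hb μ hμ hμK x hxpos
      rw [card_Smp]
      have hcard : (0 : ℝ) ≤ (Fintype.card (Fin n → Bool) : ℝ) := by positivity
      have : (bad.card : ℝ) ≤ 2 * (Fintype.card (Fin n → Bool) : ℝ) := by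
        calc (bad.card : ℝ) ≤ (Fintype.card (Fin n → Bool) : ℝ) + K * (BD.card : ℝ) := hc1
          _ ≤ (Fintype.card (Fin n → Bool) : ℝ) + (Fintype.card (Fin n → Bool) : ℝ) := by
              have := hc2
              linarith [mul_comm (K : ℝ) (BD.card : ℝ)]
          _ = _ := by ring
      calc (bad.card : ℝ) ≤ 2 * (Fintype.card (Fin n → Bool) : ℝ) := this
        _ ≤ (δ * K) * (Fintype.card (Fin n → Bool) : ℝ) :=
            mul_le_mul_of_nonneg_right hδ hcard
        _ = _ := by ring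

end Pool.Agent.H321R2.OSI
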