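import Mathlib
import Pool.Agent.H321R2.OSI.Counter

/-!
# Lower bound for the error of the randomized SVD in the example
-/

namespace Pool.Agent.H321R2.OSI

open MeasureTheory Matrix Finset

variable {N k K n m d : ℕ}

lemma frob_sq {m n : ℕ} (M : Matrix (Fin m) (Fin n) ℝ) :
    frob M ^ 2 = ∑ i, ∑ j, M i j ^ 2 := by
  unfold frob
  rw [Real.sq_sqrt]
  exact sum_nonneg fun _ _ => sum_nonneg fun _ _ => sq_nonneg _

/-- diagonal entries of a symmetric idempotent -/
lemma sum_col_sq_idem (Q : Matrix (Fin n) (Fin n) ℝ) (hs : Qᵀ = Q) (hi : Q * Q = Q) (j : Fin n) :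
    ∑ i, Q i j ^ 2 = Q j j := by
  have h1 : (Qᵀ * Q) j j = Q j j := by rw [hs, hi]
  rw [← h1, Matrix.mul_apply]
  refine sum_congr rfl fun i _ => ?_
  rw [Matrix.transpose_apply, sq]

lemma diag_idem_le_one (Q : Matrix (Fin n) (Fin n) ℝ) (hs : Qᵀ = Q) (hi : Q * Q = Q)
    (j : Fin n) : Q j j ≤ 1 := by
  have h1 := sum_col_sq_idem Q hs hi j
  have h2 : Q j j ^ 2 ≤ ∑ i, Q i j ^ 2 :=
    single_le_sum (f := fun i => Q i j ^ 2) (fun _ _ => sq_nonneg _) (mem_univ j)
  nlinarith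

lemma diag_idem_nonneg (Q : Matrix (Fin n) (Fin n) ℝ) (hs : Qᵀ = Q) (hi : Q * Q = Q)
    (j : Fin n) : 0 ≤ Q j j := by
  rw [← sum_col_sq_idem Q hs hi j]
  exact sum_nonneg fun _ _ => sq_nonneg _

/-- The projector `(A S)(A S)⁺`. -/
noncomputable def proj (M : Matrix (Fin n) (Fin m) ℝ) : Matrix (Fin n) (Fin n) ℝ := M * pinv M

lemma proj_symm (M : Matrix (Fin n) (Fin m) ℝ) : (proj M)ᵀ = proj M := (pinv_spec M).mn_symm

lemma proj_idem (M : Matrix (Fin n) (Fin m) ℝ) : proj M * proj M = proj M := by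
  unfold proj
  rw [← Matrix.mul_assoc, (pinv_spec M).mnm]

lemma proj_mul (M : Matrix (Fin n) (Fin m) ℝ) : proj M * M = M := (pinv_spec M).mnm

lemma trace_proj_le (M : Matrix (Fin n) (Fin m) ℝ) : (proj M).trace ≤ m := by
  unfold proj
  rw [Matrix.trace_mul_comm]
  set Q := pinv M * M with hQ
  have hs : Qᵀ = Q := (pinv_spec M).nm_symm
  have hi : Q * Q = Q := by
    rw [hQ, ← Matrix.mul_assoc, (pinv_spec M).nmn]
  rw [Matrix.trace]
  calc ∑ i, Q.diag i ≤ ∑ _i : Fin m, (1 : ℝ) :=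
        sum_le_sum fun i _ => diag_idem_le_one Q hs hi i
    _ = m := by simp

/-- Error of the projection applied to a diagonal matrix. -/
lemma frob_err_diag (a : Fin n → ℝ) (P : Matrix (Fin n) (Fin n) ℝ) (hs : Pᵀ = P)
    (hi : P * P = P) :
    frob (diagonal a - P * diagonal a) ^ 2 = ∑ j, a j ^ 2 * (1 - P j j) := by
  have hRs : (1 - P)ᵀ = 1 - P := by rw [Matrix.transpose_sub, hs, Matrix.transpose_one]
  have hRi : (1 - P) * (1 - P) = 1 - P := by
    rw [Matrix.sub_mul, Matrix.mul_sub, Matrix.mul_sub, hi]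
    simp
  rw [frob_sq, sum_comm]
  refine sum_congr rfl fun j _ => ?_
  have h1 : ∀ i, (diagonal a - P * diagonal a) i j = (1 - P) i j * a j := by
    intro i
    rw [Matrix.sub_apply, Matrix.mul_diagonal, Matrix.sub_apply, Matrix.one_apply,
      Matrix.diagonal_apply]
    by_cases h : i = j
    · subst h; simp; ring
    · simp [h]
  simp only [h1, mul_pow]
  rw [← sum_mul, sum_col_sq_idem (1 - P) hRs hRi j, Matrix.sub_apply, Matrix.one_apply_eq]
  ring

/-- the rows of the test matrix in the example -/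
noncomputable def brow (s : ℝ) (w : Fin N → Fin k → ℝ) : Fin (N + 1) → Fin (k + 1) → ℝ :=
  Fin.cons (Fin.cons 1 (fun _ => 0)) (fun j => Fin.cons s (fun i => Real.sqrt (1 - s ^ 2) * w j i))

/-- the singular values of the example -/
noncomputable def avec (N : ℕ) : Fin (N + 1) → ℝ := Fin.cons (Real.sqrt N) (fun _ => 1)

lemma gram_brow_zero (s : ℝ) (w : Fin N → Fin k → ℝ) : gram (brow s w) 0 0 = 1 := by
  simp [gram, brow, Fin.sum_univ_succ]

lemma gram_brow_zero_succ (s : ℝ) (w : Fin N → Fin k → ℝ) (j : Fin N) :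
    gram (brow s w) 0 j.succ = s := by
  simp [gram, brow, Fin.sum_univ_succ]

lemma gram_brow_succ (s : ℝ) (hs : s ^ 2 ≤ 1) (w : Fin N → Fin k → ℝ) (j l : Fin N) :
    gram (brow s w) j.succ l.succ = s ^ 2 + (1 - s ^ 2) * ∑ i, w j i * w l i := by
  simp only [gram, brow, Fin.sum_univ_succ, Fin.cons_succ, Fin.cons_zero]
  rw [mul_sum]
  congr 1
  · ring
  refine sum_congr rfl fun i _ => ?_
  calc Real.sqrt (1 - s ^ 2) * w j i * (Real.sqrt (1 - s ^ 2) * w l i)
      = (Real.sqrt (1 - s ^ 2) * Real.sqrt (1 - s ^ 2)) * (w j i * w l i) := by ring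
    _ = (1 - s ^ 2) * (w j i * w l i) := by
        rw [Real.mul_self_sqrt (by linarith)]

lemma bestErr_le (N : ℕ) : bestErr (diagonal (avec N)) 1 ≤ Real.sqrt N := by
  unfold bestErr
  refine csInf_le ⟨0, ?_⟩ ⟨diagonal (Fin.cons (Real.sqrt N) (fun _ => 0)), ?_, ?_⟩
  · rintro e ⟨B, _, rfl⟩
    exact Real.sqrt_nonneg _
  · rw [Matrix.rank_diagonal]
    have hsub : ∀ i : {i : Fin (N + 1) // (Fin.cons (Real.sqrt N) (fun _ => 0) :
        Fin (N + 1) → ℝ) i ≠ 0}, i.1 = 0 := by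
      rintro ⟨i, hi⟩
      simp only
      refine Fin.cases ?_ ?_ i hi
      · intro _; rfl
      · intro j hj
        simp at hj
    rw [Fintype.card_le_one_iff]
    intro x y
    exact Subtype.ext ((hsub x).trans (hsub y).symm)
  · unfold frob
    congr 1
    have h1 : ∀ i j : Fin (N + 1), ((diagonal (avec N) -
        diagonal (Fin.cons (Real.sqrt N) (fun _ => 0) : Fin (N + 1) → ℝ)) i j) ^ 2 =
        if i = j then (Fin.cons 0 (fun _ => 1) : Fin (N + 1) → ℝ) j else 0 := by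
      intro i j
      rw [Matrix.sub_apply, Matrix.diagonal_apply, Matrix.diagonal_apply]
      by_cases h : i = j
      · subst h
        simp only [if_true, avec]
        refine Fin.cases ?_ (fun l => ?_) i
        · simp
        · simp
      · simp [h]
    simp only [h1, sum_ite_eq, mem_univ, if_true]
    rw [Fin.sum_univ_succ]
    simp

lemma sum_avec_sq (N : ℕ) : ∑ j, avec N j ^ 2 = 2 * N := by
  rw [Fin.sum_univ_succ]
  simp only [avec, Fin.cons_zero, Fin.cons_succ, one_pow, sum_const, card_univ, Fintype.card_fin,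
    nsmul_eq_mul, mul_one]
  rw [Real.sq_sqrt (Nat.cast_nonneg N)]
  ring

/-- Key lower bound: the first coordinate direction is captured badly. -/
lemma one_sub_proj_zero (hK : 2 ≤ K) (s : ℝ) (hs1 : s ≤ 1) (hs0 : 0 < s)
    (w : Fin N → Fin k → ℝ) (hw : ∀ i, ∑ j, w j i = 0) (hN : 0 < N)
    (ω : Smp K (N + 1)) (hω : (ω.1 : ℕ) ≠ 0) :
    s ^ 2 / 2 ≤ 1 - proj (diagonal (avec N) * Smat K (brow s w) ω) 0 0 := by
  set κ := Real.sqrt ((K : ℝ) / ((K : ℝ) - 1)) with hκ
  set M := diagonal (avec N) * Smat K (brow s w) ω with hM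
  set P := proj M with hP
  set y : Fin (k + 1) → ℝ := fun l => pinv M l 0 with hy
  have hPi0 : P * P = P := proj_idem M
  have hPs0 : Pᵀ = P := proj_symm M
  have hRs : (1 - P)ᵀ = 1 - P := by rw [Matrix.transpose_sub, hPs0, Matrix.transpose_one]
  have hRi : (1 - P) * (1 - P) = 1 - P := by
    rw [Matrix.sub_mul, Matrix.mul_sub, Matrix.mul_sub, hPi0]
    simp
  have h1 : 1 - P 0 0 = ∑ i, (1 - P) i 0 ^ 2 := by
    rw [sum_col_sq_idem (1 - P) hRs hRi 0, Matrix.sub_apply, Matrix.one_apply_eq]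
  have hPi : ∀ i, P i 0 = ∑ l, M i l * y l := by
    intro i
    rw [hP, proj, Matrix.mul_apply]
  have hM0 : ∀ l, M 0 l = Real.sqrt N * (κ * (sg (ω.2 0) * brow s w 0 l)) := by
    intro l
    rw [hM, Matrix.diagonal_mul]
    simp [avec, Smat, hω, hκ]
  have hMs : ∀ (j : Fin N) l, M j.succ l = κ * (sg (ω.2 j.succ) * brow s w j.succ l) := by
    intro j l
    rw [hM, Matrix.diagonal_mul]
    simp [avec, Smat, hω, hκ]
  set u := κ * (sg (ω.2 0) * y 0) with hu
  have hP0 : P 0 0 = Real.sqrt N * u := by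
    rw [hPi, Fin.sum_univ_succ]
    simp only [hM0, brow, Fin.cons_zero, Fin.cons_succ, mul_zero, zero_mul, sum_const_zero,
      add_zero, mul_one]
    rw [hu]; ring
  set β : Fin N → ℝ := fun j => Real.sqrt (1 - s ^ 2) * ∑ i, w j i * y i.succ with hβ
  have hPs : ∀ j : Fin N, P j.succ 0 = κ * sg (ω.2 j.succ) * (s * y 0 + β j) := by
    intro j
    rw [hPi, Fin.sum_univ_succ]
    simp only [hMs, brow, Fin.cons_zero, Fin.cons_succ]
    rw [hβ]
    simp only
    rw [mul_add, mul_sum, mul_sum]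
    congr 1
    · ring
    · refine sum_congr rfl fun i _ => ?_
      ring
  have hβsum : ∑ j, β j = 0 := by
    rw [hβ]
    simp only
    rw [← mul_sum, sum_comm]
    have : ∀ i, ∑ j, w j i * y (Fin.succ i) = 0 := by
      intro i
      rw [← sum_mul, hw, zero_mul]
    simp [this]
  have hsum : ∑ j : Fin N, (1 - P) j.succ 0 ^ 2 ≥ N * s ^ 2 * u ^ 2 := by
    have h2 : ∀ j : Fin N, (1 - P) j.succ 0 ^ 2 = κ ^ 2 * (s * y 0 + β j) ^ 2 := by
      intro j
      rw [Matrix.sub_apply, hPs, Matrix.one_apply_ne (Fin.succ_ne_zero j)]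
      have := sg_mul_self (ω.2 j.succ)
      calc (0 - κ * sg (ω.2 j.succ) * (s * y 0 + β j)) ^ 2
          = κ ^ 2 * (sg (ω.2 j.succ) * sg (ω.2 j.succ)) * (s * y 0 + β j) ^ 2 := by ring
        _ = _ := by rw [this, mul_one]
    simp only [h2]
    have h3 : ∑ j, κ ^ 2 * (s * y 0 + β j) ^ 2 =
        κ ^ 2 * (N * (s * y 0) ^ 2 + ∑ j, β j ^ 2) := by
      rw [← mul_sum]
      congr 1
      have : ∀ j, (s * y 0 + β j) ^ 2 = (s * y 0) ^ 2 + 2 * (s * y 0) * β j + β j ^ 2 := by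
        intro j; ring
      simp only [this, sum_add_distrib, ← mul_sum, hβsum, mul_zero, add_zero, sum_const,
        card_univ, Fintype.card_fin, nsmul_eq_mul]
    rw [h3]
    have h4 : (u : ℝ) ^ 2 = κ ^ 2 * y 0 ^ 2 := by
      rw [hu]
      have := sg_mul_self (ω.2 0)
      calc (κ * (sg (ω.2 0) * y 0)) ^ 2 = κ ^ 2 * (sg (ω.2 0) * sg (ω.2 0)) * y 0 ^ 2 := by ring
        _ = _ := by rw [this, mul_one]
    rw [h4]
    have h5 : 0 ≤ κ ^ 2 * ∑ j, β j ^ 2 :=
      mul_nonneg (sq_nonneg _) (sum_nonneg fun _ _ => sq_nonneg _)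
    nlinarith
  rw [h1, Fin.sum_univ_succ, Matrix.sub_apply, Matrix.one_apply_eq, hP0]
  have hNr : (0 : ℝ) < N := by exact_mod_cast hN
  set v := Real.sqrt N * u with hv
  have hv2 : v ^ 2 = N * u ^ 2 := by
    rw [hv, mul_pow, Real.sq_sqrt hNr.le]
  have h6 : N * s ^ 2 * u ^ 2 = s ^ 2 * v ^ 2 := by rw [hv2]; ring
  rw [h6] at hsum
  have h7 : s ^ 2 / 2 ≤ (1 - v) ^ 2 + s ^ 2 * v ^ 2 := by
    have h8 : s ^ 2 ≤ 1 := by nlinarith
    have h9 : 0 < s ^ 2 := by positivity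
    -- (1+s²) v² - 2v + 1 - s²/2 ≥ 0
    have h10 : 0 ≤ ((1 + s ^ 2) * v - 1) ^ 2 := sq_nonneg _
    have h11 : (1 + s ^ 2) * ((1 - v) ^ 2 + s ^ 2 * v ^ 2) - s ^ 2 =
        ((1 + s ^ 2) * v - 1) ^ 2 := by ring
    have h12 : s ^ 2 ≤ (1 + s ^ 2) * ((1 - v) ^ 2 + s ^ 2 * v ^ 2) := by linarith
    have h13 : (1 + s ^ 2) * ((1 - v) ^ 2 + s ^ 2 * v ^ 2) ≤
        2 * ((1 - v) ^ 2 + s ^ 2 * v ^ 2) := by
      apply mul_le_mul_of_nonneg_right (by linarith)
      positivity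
    linarith
  linarith

/-- The error of the randomized SVD in the example, for every outcome. -/
lemma err_lower (hK : 2 ≤ K) (s : ℝ) (hs1 : s ≤ 1) (hs0 : 0 < s)
    (w : Fin N → Fin k → ℝ) (hw : ∀ i, ∑ j, w j i = 0) (hN : 0 < N)
    (hk : ((k : ℝ) + 1) ≤ N * s ^ 2 / 4) (ω : Smp K (N + 1)) :
    (N : ℝ) * (1 + s ^ 2 / 4) ≤
      frob (diagonal (avec N) - rsvd (diagonal (avec N)) (Smat K (brow s w) ω)) ^ 2 := by
  have hNr : (0 : ℝ) < N := by exact_mod_cast hN
  have hs2 : s ^ 2 ≤ 1 := by nlinarith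
  by_cases hω : (ω.1 : ℕ) = 0
  · have h0 : rsvd (diagonal (avec N)) (Smat K (brow s w) ω) = 0 := by
      unfold rsvd
      rw [Smat_zero _ _ hω]
      simp
    rw [h0, sub_zero, frob_sq]
    have h1 : ∀ i j : Fin (N + 1), (diagonal (avec N) : Matrix (Fin (N+1)) (Fin (N+1)) ℝ) i j ^ 2
        = if i = j then avec N j ^ 2 else 0 := by
      intro i j
      rw [Matrix.diagonal_apply]
      by_cases h : i = j
      · subst h; simp
      · simp [h]
    simp only [h1, sum_ite_eq, mem_univ, if_true]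
    rw [sum_avec_sq]
    nlinarith
  · set M := diagonal (avec N) * Smat K (brow s w) ω with hM
    have h1 : diagonal (avec N) - rsvd (diagonal (avec N)) (Smat K (brow s w) ω) =
        diagonal (avec N) - proj M * diagonal (avec N) := rfl
    rw [h1, frob_err_diag (avec N) (proj M) (proj_symm M) (proj_idem M), Fin.sum_univ_succ]
    simp only [avec, Fin.cons_zero, Fin.cons_succ, one_pow, one_mul]
    rw [Real.sq_sqrt hNr.le, sum_sub_distrib]
    simp only [sum_const, card_univ, Fintype.card_fin, nsmul_eq_mul, mul_one]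
    have h2 := one_sub_proj_zero hK s hs1 hs0 w hw hN ω hω
    rw [← hM] at h2
    have h3 := trace_proj_le M
    rw [Matrix.trace, Fin.sum_univ_succ] at h3
    simp only [Matrix.diag_apply] at h3
    have h4 := diag_idem_nonneg (proj M) (proj_symm M) (proj_idem M) 0
    push_cast at h3
    have h5 : (N : ℝ) * (s ^ 2 / 2) ≤ N * (1 - proj M 0 0) :=
      mul_le_mul_of_nonneg_left h2 hNr.le
    nlinarith

end Pool.Agent.H321R2.OSI
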