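import Mathlib
import Pool.Agent.H321R2.OSI.Defs
import Pool.Agent.H321R2.OSI.Lower

/-!
# Deterministic part of the relative-error bound for the randomized SVD
-/

namespace Pool.Agent.H321R2.OSI

open Matrix Finset

variable {n d k r m : ℕ}

lemma sqn_eq_dot (x : Fin n → ℝ) : sqn x = x ⬝ᵥ x := by
  unfold sqn dotProduct
  exact sum_congr rfl fun i _ => sq _

lemma sqn_nonneg (x : Fin n → ℝ) : 0 ≤ sqn x := sum_nonneg fun _ _ => sq_nonneg _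

lemma eq_zero_of_sqn {x : Fin n → ℝ} (h : sqn x = 0) : x = 0 := by
  funext i
  have := (sum_eq_zero_iff_of_nonneg (fun i _ => sq_nonneg (x i))).1 h i (mem_univ i)
  exact (pow_eq_zero_iff two_ne_zero).1 this

lemma sqn_zero : sqn (0 : Fin n → ℝ) = 0 := by simp [sqn]

lemma sqn_sub (x y : Fin n → ℝ) : sqn (x - y) = sqn x - 2 * (x ⬝ᵥ y) + sqn y := by
  unfold sqn dotProduct
  rw [mul_sum, ← sum_sub_distrib, ← sum_add_distrib]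
  refine sum_congr rfl fun i _ => ?_
  rw [Pi.sub_apply]; ring

/-- `‖x - y‖² ≥ (1 - η) ‖x‖² - (1/η - 1) ‖y‖²`, multiplied by `η`. -/
lemma sqn_sub_ge (x y : Fin n → ℝ) (η : ℝ) :
    η * (1 - η) * sqn x - (1 - η) * sqn y ≤ η * sqn (x - y) := by
  unfold sqn
  rw [mul_sum, mul_sum, mul_sum, ← sum_sub_distrib]
  refine sum_le_sum fun i _ => ?_
  rw [Pi.sub_apply]
  nlinarith [sq_nonneg (η * x i - y i)]

lemma dot_mulVec_self (M : Matrix (Fin m) (Fin n) ℝ) (x : Fin n → ℝ) :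
    sqn (M *ᵥ x) = ((Mᵀ * M) *ᵥ x) ⬝ᵥ x := by
  rw [sqn_eq_dot, Matrix.dotProduct_mulVec, ← Matrix.mulVec_transpose, Matrix.mulVec_mulVec]

lemma sqn_mulVec_orth (U : Matrix (Fin d) (Fin r) ℝ) (hU : Uᵀ * U = 1) (z : Fin r → ℝ) :
    sqn (U *ᵥ z) = sqn z := by
  rw [dot_mulVec_self, hU, Matrix.one_mulVec, sqn_eq_dot]

lemma sqn_pyth (P : Matrix (Fin n) (Fin n) ℝ) (hs : Pᵀ = P) (hi : P * P = P) (y : Fin n → ℝ) :
    sqn y = sqn (P *ᵥ y) + sqn (y - P *ᵥ y) := by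
  have h1 : sqn (P *ᵥ y) = y ⬝ᵥ (P *ᵥ y) := by
    rw [dot_mulVec_self, hs, hi, dotProduct_comm]
  rw [sqn_sub, h1]; ring

lemma sqn_sub_orth (U : Matrix (Fin d) (Fin r) ℝ) (hU : Uᵀ * U = 1) (e : Fin d → ℝ)
    (he : Uᵀ *ᵥ e = 0) (z : Fin r → ℝ) : sqn (e - U *ᵥ z) = sqn e + sqn z := by
  have h1 : e ⬝ᵥ (U *ᵥ z) = 0 := by
    rw [Matrix.dotProduct_mulVec, ← Matrix.mulVec_transpose, he, zero_dotProduct]
  rw [sqn_sub, h1, sqn_mulVec_orth U hU]; ring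

lemma frob_sq_rows (M : Matrix (Fin n) (Fin d) ℝ) : frob M ^ 2 = ∑ i, sqn (M i) := frob_sq M

lemma frob_sq_cols (M : Matrix (Fin n) (Fin d) ℝ) : frob M ^ 2 = ∑ j, sqn (Mᵀ j) := by
  rw [frob_sq, sum_comm]
  rfl

/-- The randomized SVD is at least as good as any approximation with columns in the range of
`A S`. -/
lemma rsvd_le (A : Matrix (Fin n) (Fin d) ℝ) (S : Matrix (Fin d) (Fin k) ℝ)
    (X : Matrix (Fin k) (Fin d) ℝ) : frob (A - rsvd A S) ^ 2 ≤ frob (A - A * S * X) ^ 2 := by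
  set P := proj (A * S) with hP
  have hs : Pᵀ = P := proj_symm _
  have hi : P * P = P := proj_idem _
  have h1 : A - rsvd A S = (1 - P) * (A - A * S * X) := by
    have h2 : (1 - P) * (A * S * X) = 0 := by
      rw [← Matrix.mul_assoc, Matrix.sub_mul, Matrix.one_mul, hP, proj_mul, sub_self,
        Matrix.zero_mul]
    rw [Matrix.mul_sub, h2, sub_zero, Matrix.sub_mul, Matrix.one_mul]
    rfl
  rw [frob_sq_cols, frob_sq_cols (A - A * S * X), h1]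
  refine sum_le_sum fun j _ => ?_
  set Z := A - A * S * X
  have h3 : ((1 - P) * Z)ᵀ j = Zᵀ j - P *ᵥ (Zᵀ j) := by
    rw [Matrix.sub_mul, Matrix.one_mul, Matrix.transpose_sub]
    funext i
    simp only [Matrix.sub_apply, Pi.sub_apply, Matrix.transpose_apply, Matrix.mul_apply,
      Matrix.mulVec, dotProduct]
  rw [h3, sqn_pyth P hs hi (Zᵀ j)]
  have := sqn_nonneg (P *ᵥ (Zᵀ j))
  linarith

/-- coefficients of the sketched least squares solution -/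
noncomputable def coef (U : Matrix (Fin d) (Fin r) ℝ) (S : Matrix (Fin d) (Fin k) ℝ)
    (e : Fin d → ℝ) : Fin r → ℝ := pinv (Sᵀ * U) *ᵥ (Sᵀ *ᵥ e)

lemma coef_pyth (U : Matrix (Fin d) (Fin r) ℝ) (S : Matrix (Fin d) (Fin k) ℝ)
    (e : Fin d → ℝ) : sqn (Sᵀ *ᵥ e) = sqn (Sᵀ *ᵥ (U *ᵥ coef U S e)) +
      sqn (Sᵀ *ᵥ (e - U *ᵥ coef U S e)) := by
  have h1 : Sᵀ *ᵥ (U *ᵥ coef U S e) = proj (Sᵀ * U) *ᵥ (Sᵀ *ᵥ e) := by
    unfold coef proj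
    rw [Matrix.mulVec_mulVec, Matrix.mulVec_mulVec]
  rw [Matrix.mulVec_sub, h1]
  exact sqn_pyth _ (proj_symm _) (proj_idem _) _

lemma pinv_mul_of_inj (U : Matrix (Fin d) (Fin r) ℝ)
    (S : Matrix (Fin d) (Fin k) ℝ) (α : ℝ) (hα : 0 < α)
    (hG : ∀ z, α * sqn z ≤ sqn (Sᵀ *ᵥ (U *ᵥ z))) : pinv (Sᵀ * U) * (Sᵀ * U) = 1 := by
  set M := Sᵀ * U with hM
  have hinj : ∀ x, M *ᵥ x = 0 → x = 0 := by
    intro x hx
    have h1 := hG x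
    rw [Matrix.mulVec_mulVec, ← hM, hx, sqn_zero] at h1
    have h2 := sqn_nonneg x
    have h3 : sqn x = 0 := by
      rcases h2.lt_or_eq with h | h
      · nlinarith
      · exact h.symm
    exact eq_zero_of_sqn h3
  have h4 : ∀ x, (pinv M * M) *ᵥ x = x := by
    intro x
    have h5 : M *ᵥ ((pinv M * M) *ᵥ x - x) = 0 := by
      rw [Matrix.mulVec_sub, Matrix.mulVec_mulVec, ← Matrix.mul_assoc, (pinv_spec M).mnm, sub_self]
    have := hinj _ h5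
    exact sub_eq_zero.1 this
  ext i j
  have := congrFun (h4 (Pi.single j 1)) i
  simpa [Matrix.one_apply, Pi.single_apply] using this

/-- residual of the rows of `A` -/
noncomputable def resid (U : Matrix (Fin d) (Fin r) ℝ) (a : Fin d → ℝ) : Fin d → ℝ :=
  a - U *ᵥ (Uᵀ *ᵥ a)

lemma resid_orth (U : Matrix (Fin d) (Fin r) ℝ) (hU : Uᵀ * U = 1) (a : Fin d → ℝ) :
    Uᵀ *ᵥ resid U a = 0 := by
  unfold resid
  rw [Matrix.mulVec_sub, Matrix.mulVec_mulVec, hU, Matrix.one_mulVec, sub_self]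

theorem rsvd_error (A : Matrix (Fin n) (Fin d) ℝ) (U : Matrix (Fin d) (Fin r) ℝ)
    (hU : Uᵀ * U = 1) (S : Matrix (Fin d) (Fin k) ℝ) (α : ℝ) (hα : 0 < α)
    (hG : ∀ z, α * sqn z ≤ sqn (Sᵀ *ᵥ (U *ᵥ z))) :
    frob (A - rsvd A S) ^ 2 ≤ ∑ i, (sqn (resid U (A i)) + sqn (coef U S (resid U (A i)))) := by
  set N := pinv (Sᵀ * U) with hN
  have hNM : N * (Sᵀ * U) = 1 := pinv_mul_of_inj U S α hα hG
  refine (rsvd_le A S (Nᵀ * Uᵀ)).trans (le_of_eq ?_)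
  rw [frob_sq_rows]
  refine sum_congr rfl fun i _ => ?_
  rw [← sqn_sub_orth U hU _ (resid_orth U hU (A i))]
  congr 1
  have h1 : (A * S * (Nᵀ * Uᵀ)) i = (U * N * Sᵀ) *ᵥ (A i) := by
    have h2 : A * S * (Nᵀ * Uᵀ) = A * (U * N * Sᵀ)ᵀ := by
      simp only [Matrix.transpose_mul, Matrix.transpose_transpose, Matrix.mul_assoc]
    rw [h2]
    funext j
    rw [Matrix.mul_apply, Matrix.mulVec, dotProduct]
    refine sum_congr rfl fun l _ => ?_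
    rw [Matrix.transpose_apply, mul_comm]
  have h3 : (A - A * S * (Nᵀ * Uᵀ)) i = A i - (U * N * Sᵀ) *ᵥ (A i) := by
    rw [← h1]; rfl
  rw [h3]
  have h4 : A i = U *ᵥ (Uᵀ *ᵥ A i) + resid U (A i) := by unfold resid; abel
  have h5 : (U * N * Sᵀ) *ᵥ (A i) = U *ᵥ (Uᵀ *ᵥ A i) + U *ᵥ coef U S (resid U (A i)) := by
    conv_lhs => rw [h4]
    rw [Matrix.mulVec_add]
    congr 1
    · rw [Matrix.mulVec_mulVec]
      have : U * N * Sᵀ * U = U * (N * (Sᵀ * U)) := by simp only [Matrix.mul_assoc]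
      rw [this, hNM, Matrix.mul_one]
    · unfold coef
      simp only [Matrix.mulVec_mulVec, Matrix.mul_assoc, ← hN]
  rw [h5]
  unfold resid
  abel

/-- The deterministic lower bound: if the sketch is almost isometric from below on the span of
`e - τ u₀` and the other columns of `U`, where `τ` is close to the `u₀`-coefficient of `z`, then
`‖Sᵀ (e - U z)‖² ≥ (1 - 6 ε) ‖e‖²`. -/
lemma lower_grid (U : Matrix (Fin d) (Fin (r + 1)) ℝ) (hU : Uᵀ * U = 1)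
    (S : Matrix (Fin d) (Fin k) ℝ) (e : Fin d → ℝ) (he : Uᵀ *ᵥ e = 0) (ε : ℝ) (hε : 0 < ε)
    (hε1 : ε ≤ 1) (z : Fin (r + 1) → ℝ) (τ : ℝ) (hτ : (z 0 - τ) ^ 2 ≤ ε ^ 2 * sqn e)
    (ha : sqn (Sᵀ *ᵥ (Uᵀ 0)) ≤ 4)
    (hG : (1 - ε) * sqn (e - U *ᵥ Function.update z 0 τ) ≤
      sqn (Sᵀ *ᵥ (e - U *ᵥ Function.update z 0 τ))) :
    (1 - 6 * ε) * sqn e ≤ sqn (Sᵀ *ᵥ (e - U *ᵥ z)) := by
  set z' := Function.update z 0 τ with hz'
  have h1 : z = z' + (z 0 - τ) • (Pi.single 0 1 : Fin (r + 1) → ℝ) := by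
    funext i
    rcases eq_or_ne i 0 with rfl | h
    · simp [hz']
    · simp [hz', h]
  have h2 : U *ᵥ z = U *ᵥ z' + (z 0 - τ) • (Uᵀ 0) := by
    conv_lhs => rw [h1]
    rw [Matrix.mulVec_add, Matrix.mulVec_smul, Matrix.mulVec_single_one]
    rfl
  have h3 : Sᵀ *ᵥ (e - U *ᵥ z) =
      Sᵀ *ᵥ (e - U *ᵥ z') - Sᵀ *ᵥ ((z 0 - τ) • (Uᵀ 0)) := by
    rw [← Matrix.mulVec_sub, h2]
    congr 1
    abel
  have h4 : sqn (Sᵀ *ᵥ ((z 0 - τ) • (Uᵀ 0))) = (z 0 - τ) ^ 2 * sqn (Sᵀ *ᵥ (Uᵀ 0)) := by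
    rw [Matrix.mulVec_smul]
    unfold sqn
    rw [mul_sum]
    exact sum_congr rfl fun i _ => by rw [Pi.smul_apply, smul_eq_mul]; ring
  have h5 := sqn_sub_ge (Sᵀ *ᵥ (e - U *ᵥ z')) (Sᵀ *ᵥ ((z 0 - τ) • (Uᵀ 0))) ε
  rw [← h3, h4] at h5
  have h6 : sqn (e - U *ᵥ z') = sqn e + sqn z' := sqn_sub_orth U hU e he z'
  have h7 : sqn e ≤ sqn (e - U *ᵥ z') := by
    rw [h6]; linarith [sqn_nonneg z']
  have h8 : (1 - ε) * sqn e ≤ sqn (Sᵀ *ᵥ (e - U *ᵥ z')) :=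
    (mul_le_mul_of_nonneg_left h7 (by linarith)).trans hG
  have hse := sqn_nonneg e
  have h9 : (z 0 - τ) ^ 2 * sqn (Sᵀ *ᵥ (Uᵀ 0)) ≤ ε ^ 2 * sqn e * 4 :=
    mul_le_mul hτ ha (sqn_nonneg _) (by positivity)
  have h10 : ε * (1 - ε) * ((1 - ε) * sqn e) ≤ ε * (1 - ε) * sqn (Sᵀ *ᵥ (e - U *ᵥ z')) :=
    mul_le_mul_of_nonneg_left h8 (mul_nonneg hε.le (by linarith))
  have h11 : (1 - ε) * ((z 0 - τ) ^ 2 * sqn (Sᵀ *ᵥ (Uᵀ 0))) ≤ ε ^ 2 * sqn e * 4 := by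
    have h12 : 0 ≤ (z 0 - τ) ^ 2 * sqn (Sᵀ *ᵥ (Uᵀ 0)) :=
      mul_nonneg (sq_nonneg _) (sqn_nonneg _)
    nlinarith
  have h13 : ε * ((1 - 6 * ε) * sqn e) ≤ ε * sqn (Sᵀ *ᵥ (e - U *ᵥ z)) := by
    nlinarith [mul_nonneg (mul_nonneg hε.le (sq_nonneg ε)) hse]
  exact le_of_mul_le_mul_left h13 hε

end Pool.Agent.H321R2.OSI
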