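import Mathlib
import Pool.Agent.H321R2.OSI.Det

/-!
# The grid of hyperplanes and measurability of the injectivity events
-/

namespace Pool.Agent.H321R2.OSI

open MeasureTheory Matrix Finset

variable {n d k r m : ℕ}

lemma exists_grid (ε s t : ℝ) (hε : 0 < ε) (hs : 0 ≤ s) (ht : |t| ≤ 3 * s) :
    ∃ j ∈ range (2 * ⌈3 / ε⌉₊ + 1),
      (t - ((j : ℝ) - (⌈3 / ε⌉₊ : ℕ)) * (ε * s)) ^ 2 ≤ ε ^ 2 * s ^ 2 := by
  set N := ⌈3 / ε⌉₊ with hN
  rcases hs.eq_or_lt with rfl | hs'
  · refine ⟨0, by simp, ?_⟩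
    have : t = 0 := by
      have : |t| ≤ 0 := by simpa using ht
      exact abs_nonpos_iff.1 this
    rw [this]; simp
  · have hes : 0 < ε * s := mul_pos hε hs'
    set x := t / (ε * s) with hx
    have hxt : t = x * (ε * s) := by rw [hx]; field_simp
    have hxa : |x| ≤ 3 / ε := by
      rw [hx, abs_div, abs_of_pos hes, div_le_div_iff₀ hes hε]
      calc |t| * ε ≤ 3 * s * ε := mul_le_mul_of_nonneg_right ht hε.le
        _ = 3 * (ε * s) := by ring
    have hNle : 3 / ε ≤ (N : ℝ) := Nat.le_ceil _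
    have hx1 := (abs_le.1 (hxa.trans hNle)).1
    have hx2 := (abs_le.1 (hxa.trans hNle)).2
    have h0 : 0 ≤ x + N := by linarith
    refine ⟨⌊x + N⌋₊, ?_, ?_⟩
    · rw [mem_range]
      have : ⌊x + N⌋₊ ≤ 2 * N := by
        apply Nat.floor_le_of_le
        push_cast
        linarith
      omega
    · have h1 := Nat.floor_le h0
      have h2 := Nat.lt_floor_add_one (x + N)
      have h3 : t - ((⌊x + N⌋₊ : ℝ) - (N : ℕ)) * (ε * s) = (x + N - ⌊x + N⌋₊) * (ε * s) := by
        rw [hxt]; ring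
      rw [h3, mul_pow]
      have h4 : (x + N - ⌊x + N⌋₊) ^ 2 ≤ 1 := by
        apply pow_le_one₀ <;> linarith
      calc (x + N - ⌊x + N⌋₊) ^ 2 * (ε * s) ^ 2 ≤ 1 * (ε * s) ^ 2 :=
            mul_le_mul_of_nonneg_right h4 (sq_nonneg _)
        _ = ε ^ 2 * s ^ 2 := by ring

/-- the injectivity event for one matrix -/
def InjOn (S : Matrix (Fin d) (Fin k) ℝ) (α : ℝ) (V : Submodule ℝ (Fin d → ℝ)) : Prop :=
  ∀ x ∈ V, α * sqn x ≤ sqn (Sᵀ *ᵥ x)

/-- spanning vectors of the hyperplane `span (e - τ u₀, u₁, …)` -/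
def hypv (U : Matrix (Fin d) (Fin (r + 1)) ℝ) (e : Fin d → ℝ) (τ : ℝ) :
    Fin (r + 1) → Fin d → ℝ :=
  Fin.cons (e - τ • (Uᵀ 0)) (fun i => Uᵀ i.succ)

lemma mulVec_eq_sum (U : Matrix (Fin d) (Fin r) ℝ) (z : Fin r → ℝ) :
    U *ᵥ z = ∑ i, z i • (Uᵀ i) := by
  funext j
  simp only [Matrix.mulVec, dotProduct, Finset.sum_apply, Pi.smul_apply, smul_eq_mul,
    Matrix.transpose_apply]
  exact sum_congr rfl fun i _ => mul_comm _ _

lemma mulVec_succ (U : Matrix (Fin d) (Fin (r + 1)) ℝ) (z : Fin (r + 1) → ℝ) :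
    U *ᵥ z = z 0 • (Uᵀ 0) + ∑ i : Fin r, z i.succ • (Uᵀ i.succ) := by
  rw [mulVec_eq_sum, Fin.sum_univ_succ]

lemma mem_gspan (U : Matrix (Fin d) (Fin (r + 1)) ℝ) (e : Fin d → ℝ) (τ : ℝ)
    (z : Fin (r + 1) → ℝ) :
    e - U *ᵥ Function.update z 0 τ ∈ Submodule.span ℝ (Set.range (hypv U e τ)) := by
  have h1 : e - U *ᵥ Function.update z 0 τ =
      hypv U e τ 0 - ∑ i : Fin r, z i.succ • hypv U e τ i.succ := by
    rw [mulVec_succ]
    simp only [hypv, Fin.cons_zero, Fin.cons_succ, Function.update_self]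
    have : ∀ i : Fin r, Function.update z 0 τ i.succ = z i.succ := by
      intro i
      rw [Function.update_of_ne (Fin.succ_ne_zero i)]
    simp only [this]
    abel
  rw [h1]
  exact Submodule.sub_mem _ (Submodule.subset_span ⟨0, rfl⟩)
    (Submodule.sum_mem _ fun i _ => Submodule.smul_mem _ _ (Submodule.subset_span ⟨i.succ, rfl⟩))

lemma mem_uspan (U : Matrix (Fin d) (Fin r) ℝ) (z : Fin r → ℝ) :
    U *ᵥ z ∈ Submodule.span ℝ (Set.range fun i => Uᵀ i) := by
  rw [mulVec_eq_sum]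
  exact Submodule.sum_mem _ fun i _ => Submodule.smul_mem _ _ (Submodule.subset_span ⟨i, rfl⟩)

lemma finrank_uspan (U : Matrix (Fin d) (Fin r) ℝ) (hU : Uᵀ * U = 1) :
    Module.finrank ℝ (Submodule.span ℝ (Set.range fun i => Uᵀ i)) = r := by
  have h : LinearIndependent ℝ (fun i => Uᵀ i : Fin r → Fin d → ℝ) := by
    rw [Fintype.linearIndependent_iff]
    intro g hg
    rw [← mulVec_eq_sum] at hg
    have h1 := sqn_mulVec_orth U hU g
    rw [hg, sqn_zero] at h1
    have h2 := eq_zero_of_sqn h1.symm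
    intro i; rw [h2]; rfl
  have := finrank_span_eq_card h
  simpa using this

lemma sqn_smul' (c : ℝ) (x : Fin n → ℝ) : sqn (c • x) = c ^ 2 * sqn x := by
  unfold sqn
  rw [mul_sum]
  refine sum_congr rfl fun i _ => ?_
  simp [mul_pow]

lemma finrank_gspan (U : Matrix (Fin d) (Fin (r + 1)) ℝ) (hU : Uᵀ * U = 1) (e : Fin d → ℝ)
    (he : Uᵀ *ᵥ e = 0) (hne : sqn e ≠ 0) (τ : ℝ) :
    Module.finrank ℝ (Submodule.span ℝ (Set.range (hypv U e τ))) = r + 1 := by
  have h : LinearIndependent ℝ (hypv U e τ) := by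
    rw [Fintype.linearIndependent_iff]
    intro g hg
    set z : Fin (r + 1) → ℝ := Fin.cons (g 0 * τ) (fun i => - g i.succ) with hz
    have h1 : ∑ i, g i • hypv U e τ i = g 0 • e - U *ᵥ z := by
      rw [Fin.sum_univ_succ, mulVec_succ]
      simp only [hypv, hz, Fin.cons_zero, Fin.cons_succ, neg_smul, sum_neg_distrib, smul_sub,
        smul_smul]
      abel
    have h2 : Uᵀ *ᵥ (g 0 • e) = 0 := by rw [Matrix.mulVec_smul, he, smul_zero]
    have h3 := sqn_sub_orth U hU (g 0 • e) h2 z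
    rw [← h1, hg, sqn_zero, sqn_smul'] at h3
    have h4 := sqn_nonneg e
    have h5 := sqn_nonneg z
    have h6 : 0 < sqn e := lt_of_le_of_ne h4 (Ne.symm hne)
    have h7 : 0 ≤ g 0 ^ 2 * sqn e := by positivity
    have h8 : sqn z = 0 := by linarith
    have h9 : g 0 ^ 2 * sqn e = 0 := by linarith
    have h10 : g 0 = 0 := by
      rcases mul_eq_zero.1 h9 with h | h
      · exact (pow_eq_zero_iff two_ne_zero).1 h
      · exact absurd h hne
    have h11 := eq_zero_of_sqn h8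
    intro i
    refine Fin.cases h10 (fun i => ?_) i
    have := congrFun h11 i.succ
    simp only [hz, Fin.cons_succ, Pi.zero_apply, neg_eq_zero] at this
    exact this
  have := finrank_span_eq_card h
  simpa using this

lemma continuous_sqn_mulVec (M : Matrix (Fin m) (Fin d) ℝ) :
    Continuous fun x : Fin d → ℝ => sqn (M *ᵥ x) := by
  unfold sqn Matrix.mulVec dotProduct
  fun_prop

lemma continuous_sqn : Continuous fun x : Fin d → ℝ => sqn x := by
  unfold sqn
  fun_prop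

variable {W : Type} [MeasurableSpace W]

lemma measurable_sqn (S : W → Matrix (Fin d) (Fin k) ℝ) (hS : ∀ i j, Measurable fun w => S w i j)
    (x : Fin d → ℝ) : Measurable fun w => sqn ((S w)ᵀ *ᵥ x) := by
  unfold sqn Matrix.mulVec dotProduct
  simp only [Matrix.transpose_apply]
  fun_prop

lemma measurableSet_inj (S : W → Matrix (Fin d) (Fin k) ℝ)
    (hS : ∀ i j, Measurable fun w => S w i j) (α : ℝ) (V : Submodule ℝ (Fin d → ℝ)) :
    MeasurableSet {w | InjOn (S w) α V} := by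
  obtain ⟨D, hDc, hDd⟩ := TopologicalSpace.exists_countable_dense V
  have h1 : {w | InjOn (S w) α V} =
      ⋂ x ∈ D, {w | α * sqn (x : Fin d → ℝ) ≤ sqn ((S w)ᵀ *ᵥ (x : Fin d → ℝ))} := by
    ext w
    simp only [Set.mem_iInter, Set.mem_ofPred_eq]
    constructor
    · intro h x _
      exact h x x.2
    · intro h x hx
      have hcl : IsClosed {y : V | α * sqn (y : Fin d → ℝ) ≤ sqn ((S w)ᵀ *ᵥ (y : Fin d → ℝ))} := by
        apply isClosed_le
        · exact (continuous_const.mul (continuous_sqn.comp continuous_subtype_val))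
        · exact (continuous_sqn_mulVec _).comp continuous_subtype_val
      have hsub : D ⊆ {y : V | α * sqn (y : Fin d → ℝ) ≤ sqn ((S w)ᵀ *ᵥ (y : Fin d → ℝ))} :=
        fun y hy => h y hy
      have := hcl.closure_subset_iff.2 hsub (hDd ⟨x, hx⟩)
      exact this
  rw [h1]
  exact MeasurableSet.biInter hDc fun x _ =>
    measurableSet_le measurable_const (measurable_sqn S hS x)

end Pool.Agent.H321R2.OSI
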