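import Mathlib
import Pool.Agent.H321R2.OSI.Grid

/-!
# The best rank-`r` error is attained by an orthogonal projection
-/

namespace Pool.Agent.H321R2.OSI

open Matrix Finset

variable {n d k r m : ℕ}

lemma exists_orth_of_rank (B : Matrix (Fin n) (Fin d) ℝ) (hB : B.rank ≤ r) (hrd : r ≤ d) :
    ∃ U : Matrix (Fin d) (Fin r) ℝ, Uᵀ * U = 1 ∧ ∀ i, U *ᵥ (Uᵀ *ᵥ B i) = B i := by
  classical
  set ψ : (Fin d → ℝ) ≃ₗ[ℝ] EuclideanSpace ℝ (Fin d) :=
    (WithLp.linearEquiv 2 ℝ (Fin d → ℝ)).symm with hψ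
  set R0 := Submodule.span ℝ (Set.range B.row) with hR0
  set R := R0.map (ψ : (Fin d → ℝ) →ₗ[ℝ] EuclideanSpace ℝ (Fin d)) with hR
  have hq : Module.finrank ℝ R ≤ r := by
    have h1 : Module.finrank ℝ R = Module.finrank ℝ R0 := LinearEquiv.finrank_map_eq ψ R0
    rw [h1, hR0, ← Matrix.rank_eq_finrank_span_row]
    exact hB
  set q := Module.finrank ℝ R with hqdef
  set b₀ := stdOrthonormalBasis ℝ R with hb₀
  set v : Fin d → EuclideanSpace ℝ (Fin d) :=
    fun i => if h : (i : ℕ) < q then ((b₀ ⟨i, h⟩ : R) : EuclideanSpace ℝ (Fin d)) else 0 with hv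
  set s : Set (Fin d) := {i | (i : ℕ) < q} with hs
  have horth : Orthonormal ℝ (s.domRestrict v) := by
    have h1 := (b₀.orthonormal.comp_linearIsometry R.subtypeₗᵢ)
    have h2 := h1.comp (fun i : s => (⟨(i : Fin d), i.2⟩ : Fin q)) (by
      intro i j hij
      have := congrArg Fin.val hij
      exact Subtype.ext (Fin.ext this))
    have h3 : s.domRestrict v = (R.subtypeₗᵢ ∘ b₀) ∘ (fun i : s => (⟨(i : Fin d), i.2⟩ : Fin q)) := by
      funext i
      have hi : ((i : Fin d) : ℕ) < q := i.2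
      change v (i : Fin d) = ((b₀ ⟨((i : Fin d) : ℕ), hi⟩ : R) : EuclideanSpace ℝ (Fin d))
      simp only [hv, dif_pos hi]
    rw [h3]
    exact h2
  obtain ⟨b, hb⟩ := horth.exists_orthonormalBasis_extension_of_card_eq
    (by simp : Module.finrank ℝ (EuclideanSpace ℝ (Fin d)) = Fintype.card (Fin d))
  set U : Matrix (Fin d) (Fin r) ℝ := Matrix.of fun l i => (b (Fin.castLE hrd i)).ofLp l with hU
  have hUU : Uᵀ * U = 1 := by
    ext i j
    have h1 := (orthonormal_iff_ite.1 b.orthonormal) (Fin.castLE hrd i) (Fin.castLE hrd j)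
    rw [PiLp.inner_apply] at h1
    simp only [Matrix.mul_apply, Matrix.transpose_apply, hU, Matrix.of_apply, Matrix.one_apply]
    have h2 : (Fin.castLE hrd i = Fin.castLE hrd j) ↔ i = j := by
      constructor
      · intro h; exact Fin.ext (by simpa using congrArg Fin.val h)
      · intro h; rw [h]
    simp only [h2] at h1
    rw [← h1]
    refine sum_congr rfl fun l _ => ?_
    simp [mul_comm]
  refine ⟨U, hUU, fun i => ?_⟩
  have hmem : ∃ z : Fin r → ℝ, B i = U *ᵥ z := by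
    have h1 : ψ (B i) ∈ R := Submodule.mem_map_of_mem (Submodule.subset_span ⟨i, rfl⟩)
    have h2 : R ≤ Submodule.span ℝ (Set.range fun j : Fin r => b (Fin.castLE hrd j)) := by
      intro x hx
      have h3 := b₀.sum_repr (⟨x, hx⟩ : R)
      have h4 : x = ∑ j, b₀.repr ⟨x, hx⟩ j • ((b₀ j : R) : EuclideanSpace ℝ (Fin d)) := by
        have h5 : x = ((∑ j, b₀.repr ⟨x, hx⟩ j • b₀ j : R) : EuclideanSpace ℝ (Fin d)) :=
          (congrArg Subtype.val h3).symm
        refine h5.trans ?_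
        simp
      rw [h4]
      refine Submodule.sum_mem _ fun j _ => Submodule.smul_mem _ _ (Submodule.subset_span ?_)
      refine ⟨Fin.castLE hq j, ?_⟩
      have h5 : b (Fin.castLE hrd (Fin.castLE hq j)) = v (Fin.castLE hrd (Fin.castLE hq j)) :=
        hb _ (by simp [hs])
      simp only
      rw [h5, hv]
      simp
    obtain ⟨c, hc⟩ := (Submodule.mem_span_range_iff_exists_fun ℝ).1 (h2 h1)
    refine ⟨c, ?_⟩
    funext l
    have h6 := congrArg (fun x : EuclideanSpace ℝ (Fin d) => x.ofLp l) hc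
    simp only [WithLp.ofLp_sum, WithLp.ofLp_smul, Finset.sum_apply, Pi.smul_apply, smul_eq_mul] at h6
    simp only [Matrix.mulVec, dotProduct, hU, Matrix.of_apply]
    have h7 : (ψ (B i)).ofLp l = B i l := rfl
    rw [← h7, ← h6]
    exact sum_congr rfl fun j _ => mul_comm _ _
  obtain ⟨z, hz⟩ := hmem
  rw [hz, Matrix.mulVec_mulVec z Uᵀ U, hUU, Matrix.one_mulVec]

lemma resid_le_of_rank (A B : Matrix (Fin n) (Fin d) ℝ) (U : Matrix (Fin d) (Fin r) ℝ)
    (hU : Uᵀ * U = 1) (hB : ∀ i, U *ᵥ (Uᵀ *ᵥ B i) = B i) :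
    ∑ i, sqn (resid U (A i)) ≤ frob (A - B) ^ 2 := by
  rw [frob_sq_rows]
  refine sum_le_sum fun i _ => ?_
  have h1 : (A - B) i = resid U (A i) - U *ᵥ (Uᵀ *ᵥ (B i - A i)) := by
    have : (A - B) i = A i - B i := rfl
    rw [this]
    unfold resid
    rw [Matrix.mulVec_sub, Matrix.mulVec_sub, hB i]
    abel
  rw [h1, sqn_sub_orth U hU _ (resid_orth U hU (A i))]
  linarith [sqn_nonneg (Uᵀ *ᵥ (B i - A i))]

lemma isCompact_stiefel : IsCompact {u : Fin d → Fin r → ℝ |
    (Matrix.of u)ᵀ * (Matrix.of u) = 1} := by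
  have h1 : IsCompact (Set.pi Set.univ fun _ : Fin d => Set.pi Set.univ fun _ : Fin r =>
      Set.Icc (-1 : ℝ) 1) := isCompact_univ_pi fun _ => isCompact_univ_pi fun _ => isCompact_Icc
  refine h1.of_isClosed_subset ?_ ?_
  · have h2 : {u : Fin d → Fin r → ℝ | (Matrix.of u)ᵀ * (Matrix.of u) = 1} =
        ⋂ i : Fin r, ⋂ j : Fin r, {u : Fin d → Fin r → ℝ | ∑ l, u l i * u l j =
          (1 : Matrix (Fin r) (Fin r) ℝ) i j} := by
      ext u
      simp only [Set.mem_ofPred_eq, Set.mem_iInter]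
      rw [← Matrix.ext_iff]
      rfl
    rw [h2]
    refine isClosed_iInter fun i => isClosed_iInter fun j => ?_
    exact isClosed_eq (by fun_prop) continuous_const
  · intro u hu
    rw [Set.mem_ofPred_eq] at hu
    intro l _ i _
    have h3 : ∑ l, u l i * u l i = 1 := by
      have := congrFun (congrFun hu i) i
      simpa [Matrix.mul_apply] using this
    have h4 : u l i * u l i ≤ ∑ l, u l i * u l i :=
      single_le_sum (f := fun l => u l i * u l i) (fun l _ => mul_self_nonneg _) (mem_univ l)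
    rw [Set.mem_Icc]
    constructor <;> nlinarith

theorem exists_minimizer (A : Matrix (Fin n) (Fin d) ℝ) (hrd : r ≤ d) :
    ∃ U : Matrix (Fin d) (Fin r) ℝ, Uᵀ * U = 1 ∧
      ∑ i, sqn (resid U (A i)) ≤ bestErr A r ^ 2 := by
  set K := {u : Fin d → Fin r → ℝ | (Matrix.of u)ᵀ * (Matrix.of u) = 1} with hK
  have hne : K.Nonempty := by
    obtain ⟨U, hU, _⟩ := exists_orth_of_rank (n := 0) (r := r) (d := d) (0 : Matrix _ _ ℝ)
      (by simp) hrd
    exact ⟨U, hU⟩
  have hcont : Continuous fun u : Fin d → Fin r → ℝ => ∑ i, sqn (resid (Matrix.of u) (A i)) := by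
    unfold sqn resid Matrix.mulVec dotProduct
    simp only [Pi.sub_apply, Matrix.transpose_apply, Matrix.of_apply]
    fun_prop
  obtain ⟨u, hu, hmin⟩ := isCompact_stiefel.exists_isMinOn hne hcont.continuousOn
  refine ⟨Matrix.of u, hu, ?_⟩
  set f := ∑ i, sqn (resid (Matrix.of u) (A i)) with hf
  have hf0 : 0 ≤ f := sum_nonneg fun _ _ => sqn_nonneg _
  have h1 : Real.sqrt f ≤ bestErr A r := by
    unfold bestErr
    apply le_csInf
    · exact ⟨_, 0, by simp, rfl⟩
    · rintro e ⟨B, hB, rfl⟩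
      obtain ⟨U, hU, hUB⟩ := exists_orth_of_rank B hB hrd
      have h2 := resid_le_of_rank A B U hU hUB
      have h3 : f ≤ ∑ i, sqn (resid U (A i)) := hmin (show (fun l i => U l i) ∈ K from hU)
      apply Real.sqrt_le_iff.2
      exact ⟨Real.sqrt_nonneg _, h3.trans h2⟩
  calc f = Real.sqrt f ^ 2 := (Real.sq_sqrt hf0).symm
    _ ≤ bestErr A r ^ 2 := pow_le_pow_left₀ (Real.sqrt_nonneg _) h1 2

end Pool.Agent.H321R2.OSI
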