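import Mathlib
import Pool.Agent.H321R2.OSI.Min

/-!
# Probability estimates for the relative-error bound
-/

namespace Pool.Agent.H321R2.OSI

open MeasureTheory Matrix Finset

variable {n d k r m : ℕ} {W : Type} [MeasurableSpace W] {P : Measure W} [IsProbabilityMeasure P]

lemma compl_inj_le {S : W → Matrix (Fin d) (Fin k) ℝ} {α δ : ℝ} (hS : IsOSI P S r α δ)
    (V : Submodule ℝ (Fin d → ℝ)) (hV : Module.finrank ℝ V = r) :
    P.real {w | InjOn (S w) α V}ᶜ ≤ δ := by
  have h1 : 1 - δ ≤ P.real {w | InjOn (S w) α V} := hS.injectivity V hV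
  rw [probReal_compl_eq_one_sub (measurableSet_inj S hS.measurable α V)]
  linarith

/-- Upper deviation: `‖Sᵀx‖²` exceeds `4‖x‖²` with probability at most `(ε + δ)/3`. -/
lemma upper_dev {S : W → Matrix (Fin d) (Fin k) ℝ} {ε δ : ℝ} (hS : IsOSI P S r (1 - ε) δ)
    (hε0 : 0 ≤ ε) (hε1 : ε ≤ 1)
    (V : Submodule ℝ (Fin d → ℝ)) (hV : Module.finrank ℝ V = r) (x : Fin d → ℝ) (hx : x ∈ V)
    (hx0 : 0 < sqn x) :
    P.real {w | sqn ((S w)ᵀ *ᵥ x) ≤ 4 * sqn x}ᶜ ≤ (ε + δ) / 3 := by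
  set q := sqn x with hq
  set X : W → ℝ := fun w => sqn ((S w)ᵀ *ᵥ x) with hX
  have hXm : Measurable X := measurable_sqn S hS.measurable x
  set B := {w | X w ≤ 4 * q}ᶜ with hB
  set G := {w | InjOn (S w) (1 - ε) V} with hG
  have hBm : MeasurableSet B := (measurableSet_le hXm measurable_const).compl
  have hGm : MeasurableSet G := measurableSet_inj S hS.measurable _ V
  have hint : Integrable (fun w => B.indicator (fun _ => 4 * q) w +
      (G \ B).indicator (fun _ => (1 - ε) * q) w) P :=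
    ((integrable_const _).indicator hBm).add ((integrable_const _).indicator (hGm.diff hBm))
  have hle : ∀ w, B.indicator (fun _ => 4 * q) w +
      (G \ B).indicator (fun _ => (1 - ε) * q) w ≤ X w := by
    intro w
    by_cases hwB : w ∈ B
    · rw [Set.indicator_of_mem hwB, Set.indicator_of_notMem (fun h => h.2 hwB), add_zero]
      have : ¬ (X w ≤ 4 * q) := hwB
      linarith
    · rw [Set.indicator_of_notMem hwB, zero_add]
      by_cases hwG : w ∈ G
      · have hwGB : w ∈ G \ B := ⟨hwG, hwB⟩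
        rw [Set.indicator_of_mem hwGB]
        exact hwG x hx
      · rw [Set.indicator_of_notMem (fun h => hwG h.1)]
        exact sqn_nonneg _
  have h1 := integral_mono hint (hS.integrable x) hle
  rw [integral_add ((integrable_const _).indicator hBm)
    ((integrable_const _).indicator (hGm.diff hBm)), integral_indicator_const _ hBm,
    integral_indicator_const _ (hGm.diff hBm), hS.isotropy x] at h1
  simp only [smul_eq_mul] at h1
  have h2 : 1 - δ ≤ P.real G := hS.injectivity V hV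
  have h3 : P.real G ≤ P.real (G \ B) + P.real B := by
    calc P.real G ≤ P.real ((G \ B) ∪ B) := measureReal_mono (by
          intro w hw
          by_cases h : w ∈ B
          · exact Or.inr h
          · exact Or.inl ⟨hw, h⟩)
      _ ≤ _ := measureReal_union_le _ _
  have hδ : 0 ≤ δ := by
    have : P.real G ≤ 1 := measureReal_le_one
    linarith
  have h4 : P.real B * 4 + P.real (G \ B) * (1 - ε) ≤ 1 := by
    have h5 : (P.real B * 4 + P.real (G \ B) * (1 - ε)) * q ≤ 1 * q := by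
      rw [← hq] at h1
      nlinarith
    exact le_of_mul_le_mul_right h5 hx0
  have h6 : (1 - δ - P.real B) * (1 - ε) ≤ P.real (G \ B) * (1 - ε) :=
    mul_le_mul_of_nonneg_right (by linarith) (by linarith)
  have h7 : 0 ≤ P.real B := measureReal_nonneg
  have h8 : 0 ≤ ε * δ := mul_nonneg hε0 hδ
  have h9 : 0 ≤ ε * P.real B := mul_nonneg hε0 h7
  rw [le_div_iff₀ (by norm_num)]
  nlinarith

/-- For one residual vector `e`: an integrable upper bound for `‖Π e‖²`. -/
lemma row_bound {S : W → Matrix (Fin d) (Fin k) ℝ} {ε δ : ℝ}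
    (hS : IsOSI P S (r + 1) (1 - ε) δ) (hε0 : 0 < ε) (hε1 : ε ≤ 1 / 2) (hδ : δ ≤ ε ^ 2)
    (U : Matrix (Fin d) (Fin (r + 1)) ℝ) (hU : Uᵀ * U = 1) (e : Fin d → ℝ)
    (he : Uᵀ *ᵥ e = 0) :
    ∃ g : W → ℝ, Integrable g P ∧ (∀ w, 0 ≤ g w) ∧
      (∀ w, InjOn (S w) (1 - ε) (Submodule.span ℝ (Set.range fun i => Uᵀ i)) →
        sqn (coef U (S w) e) ≤ g w) ∧ ∫ w, g w ∂P ≤ 30 * ε * sqn e := by
  classical
  rcases (sqn_nonneg e).eq_or_lt with h0 | hpos
  · have he0 : e = 0 := eq_zero_of_sqn h0.symm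
    refine ⟨fun _ => 0, integrable_zero _ _ _, fun _ => le_rfl, fun w _ => ?_, ?_⟩
    · rw [he0]
      unfold coef
      rw [Matrix.mulVec_zero, Matrix.mulVec_zero, sqn_zero]
    · rw [← h0]; simp
  set s := Real.sqrt (sqn e) with hs
  have hs0 : 0 ≤ s := Real.sqrt_nonneg _
  have hs2 : s ^ 2 = sqn e := Real.sq_sqrt hpos.le
  set N := ⌈3 / ε⌉₊ with hN
  set τ : ℕ → ℝ := fun j => ((j : ℝ) - (N : ℕ)) * (ε * s) with hτ
  set V := Submodule.span ℝ (Set.range fun i => Uᵀ i) with hV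
  set H : ℕ → Submodule ℝ (Fin d → ℝ) :=
    fun j => Submodule.span ℝ (Set.range (hypv U e (τ j))) with hH
  set G1 := {w | InjOn (S w) (1 - ε) V} with hG1
  set G2 := {w | sqn ((S w)ᵀ *ᵥ (Uᵀ 0)) ≤ 4 * sqn (Uᵀ 0)} with hG2
  set G3 := {w | sqn ((S w)ᵀ *ᵥ e) ≤ 4 * sqn e} with hG3
  set G4 : ℕ → Set W := fun j => {w | InjOn (S w) (1 - ε) (H j)} with hG4
  set K := G1 ∩ G2 ∩ G3 ∩ ⋂ j ∈ range (2 * N + 1), G4 j with hK
  have hu0 : sqn (Uᵀ 0) = 1 := by
    have h1 := sqn_mulVec_orth U hU (Pi.single 0 1)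
    rw [Matrix.mulVec_single_one] at h1
    have h2 : sqn (Pi.single 0 1 : Fin (r + 1) → ℝ) = 1 := by
      unfold sqn
      simp [Pi.single_apply]
    rw [h2] at h1
    exact h1
  have hG1m : MeasurableSet G1 := measurableSet_inj S hS.measurable _ V
  have hG2m : MeasurableSet G2 := measurableSet_le (measurable_sqn S hS.measurable _) measurable_const
  have hG3m : MeasurableSet G3 := measurableSet_le (measurable_sqn S hS.measurable _) measurable_const
  have hG4m : ∀ j, MeasurableSet (G4 j) := fun j => measurableSet_inj S hS.measurable _ (H j)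
  have hKm : MeasurableSet K := ((hG1m.inter hG2m).inter hG3m).inter
    (MeasurableSet.biInter (Set.to_countable _) fun j _ => hG4m j)
  have hVr : Module.finrank ℝ V = r + 1 := finrank_uspan U hU
  have hHr : ∀ j, Module.finrank ℝ (H j) = r + 1 := fun j =>
    finrank_gspan U hU e he hpos.ne' (τ j)
  have hδ0 : 0 ≤ δ := (measureReal_nonneg).trans (compl_inj_le hS V hVr)
  -- probability of the bad event
  have hKc : P.real Kᶜ ≤ 9 * ε := by
    have h1 : Kᶜ ⊆ G1ᶜ ∪ (G2ᶜ ∪ (G3ᶜ ∪ ⋃ j ∈ range (2 * N + 1), (G4 j)ᶜ)) := by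
      intro w hw
      simp only [hK, Set.mem_compl_iff, Set.mem_inter_iff, Set.mem_iInter, not_and_or] at hw
      push Not at hw
      simp only [Set.mem_union, Set.mem_compl_iff, Set.mem_iUnion, exists_prop]
      tauto
    have h2 : P.real G1ᶜ ≤ δ := compl_inj_le hS V hVr
    have hu0mem : Uᵀ 0 ∈ V := Submodule.subset_span ⟨0, rfl⟩
    have h3 : P.real G2ᶜ ≤ (ε + δ) / 3 :=
      upper_dev hS hε0.le (by linarith) V hVr (Uᵀ 0) hu0mem (by rw [hu0]; norm_num)
    have hemem : e ∈ H N := by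
      refine Submodule.subset_span ⟨0, ?_⟩
      simp [hypv, hτ]
    have h4 : P.real G3ᶜ ≤ (ε + δ) / 3 :=
      upper_dev hS hε0.le (by linarith) (H N) (hHr N) e hemem hpos
    have h5 : P.real (⋃ j ∈ range (2 * N + 1), (G4 j)ᶜ) ≤ (2 * N + 1 : ℕ) * δ := by
      refine (measureReal_biUnion_finset_le _ _).trans ?_
      calc ∑ j ∈ range (2 * N + 1), P.real (G4 j)ᶜ ≤ ∑ _j ∈ range (2 * N + 1), δ :=
            sum_le_sum fun j _ => compl_inj_le hS (H j) (hHr j)
        _ = _ := by rw [sum_const, card_range, nsmul_eq_mul]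
    have h6 : P.real Kᶜ ≤ δ + ((ε + δ) / 3 + ((ε + δ) / 3 + (2 * N + 1 : ℕ) * δ)) := by
      refine (measureReal_mono h1).trans ((measureReal_union_le _ _).trans ?_)
      refine add_le_add h2 ((measureReal_union_le _ _).trans ?_)
      refine add_le_add h3 ((measureReal_union_le _ _).trans ?_)
      exact add_le_add h4 h5
    have h7 : (N : ℝ) < 3 / ε + 1 := Nat.ceil_lt_add_one (by positivity)
    have h8 : ((2 * N + 1 : ℕ) : ℝ) * δ ≤ 7.5 * ε := by
      push_cast
      have h9 : (2 * (N : ℝ) + 1) * δ ≤ (2 * (3 / ε + 1) + 1) * δ :=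
        mul_le_mul_of_nonneg_right (by linarith) hδ0
      have h10 : (2 * (3 / ε + 1) + 1) * δ ≤ (2 * (3 / ε + 1) + 1) * ε ^ 2 :=
        mul_le_mul_of_nonneg_left hδ (by positivity)
      have h11 : (2 * (3 / ε + 1) + 1) * ε ^ 2 = 6 * ε + 3 * ε ^ 2 := by
        field_simp; ring
      nlinarith
    have h12 : δ ≤ ε / 2 := by nlinarith
    linarith
  set c := 2 * (1 - 6 * ε) * sqn e with hc
  set X : W → ℝ := fun w => sqn ((S w)ᵀ *ᵥ e) with hX
  have hcore : ∀ w ∈ G1, sqn (coef U (S w) e) ≤ 2 * X w - K.indicator (fun _ => c) w := by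
    intro w hw
    set z := coef U (S w) e with hz
    have h1 : (1 - ε) * sqn z ≤ sqn ((S w)ᵀ *ᵥ (U *ᵥ z)) := by
      have := hw (U *ᵥ z) (mem_uspan U z)
      rwa [sqn_mulVec_orth U hU] at this
    have h2 := coef_pyth U (S w) e
    rw [← hz] at h2
    have h3 : sqn z ≤ 2 * (X w - sqn ((S w)ᵀ *ᵥ (e - U *ᵥ z))) := by
      have h4 : X w = sqn ((S w)ᵀ *ᵥ e) := rfl
      have h5 := sqn_nonneg z
      nlinarith
    by_cases hwK : w ∈ K
    · rw [Set.indicator_of_mem hwK]
      obtain ⟨⟨⟨-, hw2⟩, hw3⟩, hw4⟩ := hwK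
      have hw2' : sqn ((S w)ᵀ *ᵥ (Uᵀ 0)) ≤ 4 := by
        have : sqn ((S w)ᵀ *ᵥ (Uᵀ 0)) ≤ 4 * sqn (Uᵀ 0) := hw2
        rw [hu0] at this
        linarith
      have hw3' : X w ≤ 4 * sqn e := hw3
      have h5 : z 0 ^ 2 ≤ sqn z :=
        single_le_sum (f := fun i => z i ^ 2) (fun i _ => sq_nonneg _) (mem_univ 0)
      have h6 : z 0 ^ 2 ≤ 9 * sqn e := by
        have := sqn_nonneg ((S w)ᵀ *ᵥ (e - U *ᵥ z))
        linarith
      have h7 : |z 0| ≤ 3 * s := by
        apply abs_le_of_sq_le_sq _ (by positivity)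
        rw [mul_pow, hs2]; linarith
      obtain ⟨j, hj, hjz⟩ := exists_grid ε s (z 0) hε0 hs0 h7
      rw [Set.mem_iInter₂] at hw4
      have h8 := hw4 j hj (e - U *ᵥ Function.update z 0 (τ j)) (mem_gspan U e (τ j) z)
      have h9 := lower_grid U hU (S w) e he ε hε0 (by linarith) z (τ j)
        (by rw [← hs2]; exact hjz) hw2' h8
      rw [hc]
      linarith
    · rw [Set.indicator_of_notMem hwK]
      have := sqn_nonneg ((S w)ᵀ *ᵥ (e - U *ᵥ z))
      linarith
  have hint1 : Integrable (fun w => 2 * X w) P := (hS.integrable e).const_mul 2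
  have hint2 : Integrable (fun w => K.indicator (fun _ => c) w) P :=
    (integrable_const _).indicator hKm
  refine ⟨fun w => 2 * X w - K.indicator (fun _ => c) w, hint1.sub hint2, fun w => ?_,
    fun w hw => hcore w hw, ?_⟩
  · by_cases hwK : w ∈ K
    · exact (sqn_nonneg _).trans (hcore w hwK.1.1.1)
    · change 0 ≤ 2 * X w - K.indicator (fun _ => c) w
      rw [Set.indicator_of_notMem hwK]
      have : 0 ≤ X w := sqn_nonneg _
      linarith
  · rw [integral_sub hint1 hint2, integral_const_mul, integral_indicator_const _ hKm]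
    have h1 : ∫ w, X w ∂P = sqn e := hS.isotropy e
    rw [h1, smul_eq_mul]
    have h2 : P.real K = 1 - P.real Kᶜ := by
      rw [probReal_compl_eq_one_sub hKm]; ring
    have h3 : 0 ≤ P.real Kᶜ := measureReal_nonneg
    rw [h2, hc]
    have h4 : (1 - 6 * ε) * P.real Kᶜ ≤ 9 * ε := by nlinarith
    nlinarith

/-- Coarse version of `row_bound` for arbitrary injectivity `α > 0`. -/
lemma row_bound_coarse {S : W → Matrix (Fin d) (Fin k) ℝ} {α α₀ δ : ℝ}
    (hS : IsOSI P S r α δ) (hα0 : 0 < α₀) (hα : α₀ ≤ α)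
    (U : Matrix (Fin d) (Fin r) ℝ) (hU : Uᵀ * U = 1) (e : Fin d → ℝ) :
    ∃ g : W → ℝ, Integrable g P ∧ (∀ w, 0 ≤ g w) ∧
      (∀ w, InjOn (S w) α (Submodule.span ℝ (Set.range fun i => Uᵀ i)) →
        sqn (coef U (S w) e) ≤ g w) ∧ ∫ w, g w ∂P ≤ α₀⁻¹ * sqn e := by
  refine ⟨fun w => α₀⁻¹ * sqn ((S w)ᵀ *ᵥ e), (hS.integrable e).const_mul _, fun w => ?_,
    fun w hw => ?_, ?_⟩
  · have := sqn_nonneg ((S w)ᵀ *ᵥ e)
    positivity
  · have h1 : α * sqn (coef U (S w) e) ≤ sqn ((S w)ᵀ *ᵥ (U *ᵥ coef U (S w) e)) := by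
      have := hw (U *ᵥ coef U (S w) e) (mem_uspan U _)
      rwa [sqn_mulVec_orth U hU] at this
    have h2 := coef_pyth U (S w) e
    have h3 := sqn_nonneg ((S w)ᵀ *ᵥ (e - U *ᵥ coef U (S w) e))
    have h4 : α₀ * sqn (coef U (S w) e) ≤ α * sqn (coef U (S w) e) :=
      mul_le_mul_of_nonneg_right hα (sqn_nonneg _)
    change sqn (coef U (S w) e) ≤ α₀⁻¹ * sqn ((S w)ᵀ *ᵥ e)
    rw [inv_mul_eq_div, le_div_iff₀ hα0]
    linarith
  · rw [integral_const_mul, hS.isotropy e]

/-- From the row bounds to the Frobenius error. -/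
theorem assemble {S : W → Matrix (Fin d) (Fin k) ℝ} {α δ : ℝ}
    (hS : IsOSI P S r α δ) (hα : 0 < α) (hδ : δ ≤ 1 / 4)
    (U : Matrix (Fin d) (Fin r) ℝ) (hU : Uᵀ * U = 1) (β : ℝ) (hβ : 0 < β)
    (hrow : ∀ e : Fin d → ℝ, Uᵀ *ᵥ e = 0 → ∃ g : W → ℝ, Integrable g P ∧ (∀ w, 0 ≤ g w) ∧
      (∀ w, InjOn (S w) α (Submodule.span ℝ (Set.range fun i => Uᵀ i)) →
        sqn (coef U (S w) e) ≤ g w) ∧ ∫ w, g w ∂P ≤ β * sqn e)
    (A : Matrix (Fin n) (Fin d) ℝ) (E : ℝ) (hE : 0 ≤ E)
    (hAE : ∑ i, sqn (resid U (A i)) ≤ E ^ 2) :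
    ∃ D : Set W, MeasurableSet D ∧ 1 / 2 ≤ P.real D ∧
      ∀ w ∈ D, frob (A - rsvd A (S w)) ≤ (1 + 2 * β) * E := by
  classical
  set V := Submodule.span ℝ (Set.range fun i => Uᵀ i) with hV
  have hVr : Module.finrank ℝ V = r := finrank_uspan U hU
  set G := {w | InjOn (S w) α V} with hG
  have hGp : 1 - δ ≤ P.real G := hS.injectivity V hVr
  have hGc : P.real Gᶜ ≤ δ := compl_inj_le hS V hVr
  have herr : ∀ w ∈ G, frob (A - rsvd A (S w)) ^ 2 ≤
      ∑ i, (sqn (resid U (A i)) + sqn (coef U (S w) (resid U (A i)))) := by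
    intro w hw
    refine rsvd_error A U hU (S w) α hα fun z => ?_
    have := hw (U *ᵥ z) (mem_uspan U z)
    rwa [sqn_mulVec_orth U hU] at this
  have hfrob : ∀ M : Matrix (Fin n) (Fin d) ℝ, 0 ≤ frob M := fun M => Real.sqrt_nonneg _
  rcases hE.eq_or_lt with hE0 | hEpos
  · -- the matrix has rank at most `r`
    have hz : ∀ i, sqn (resid U (A i)) = 0 := by
      have h1 : ∑ i, sqn (resid U (A i)) = 0 := by
        apply le_antisymm
        · rw [← hE0] at hAE; simpa using hAE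
        · exact sum_nonneg fun _ _ => sqn_nonneg _
      intro i
      exact (sum_eq_zero_iff_of_nonneg (fun i _ => sqn_nonneg _)).1 h1 i (mem_univ i)
    refine ⟨G, measurableSet_inj S hS.measurable α V, by linarith, ?_⟩
    · intro w hw
      have h2 := herr w hw
      have h3 : ∑ i, (sqn (resid U (A i)) + sqn (coef U (S w) (resid U (A i)))) = 0 := by
        refine sum_eq_zero fun i _ => ?_
        rw [hz i, eq_zero_of_sqn (hz i)]
        unfold coef
        rw [Matrix.mulVec_zero, Matrix.mulVec_zero, sqn_zero, add_zero]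
      rw [h3] at h2
      have h4 : frob (A - rsvd A (S w)) = 0 := by
        have := hfrob (A - rsvd A (S w))
        nlinarith
      rw [h4, ← hE0, mul_zero]
  · choose g hg1 hg2 hg3 hg4 using fun i => hrow (resid U (A i)) (resid_orth U hU (A i))
    set F : W → ℝ := fun w => ∑ i, g i w with hF
    have hFint : Integrable F P := integrable_finsetSum _ fun i _ => hg1 i
    have hF0 : ∀ w, 0 ≤ F w := fun w => sum_nonneg fun i _ => hg2 i w
    have hFI : ∫ w, F w ∂P ≤ β * E ^ 2 := by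
      rw [hF, integral_finsetSum _ fun i _ => hg1 i]
      calc ∑ i, ∫ w, g i w ∂P ≤ ∑ i, β * sqn (resid U (A i)) := sum_le_sum fun i _ => hg4 i
        _ = β * ∑ i, sqn (resid U (A i)) := by rw [mul_sum]
        _ ≤ β * E ^ 2 := mul_le_mul_of_nonneg_left hAE hβ.le
    have hmarkov := mul_meas_ge_le_integral_of_nonneg (μ := P)
      (Filter.Eventually.of_forall hF0) hFint (4 * β * E ^ 2)
    have hbad : P.real {w | 4 * β * E ^ 2 ≤ F w} ≤ 1 / 4 := by
      have h1 : 0 < β * E ^ 2 := by positivity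
      have h2 : 4 * β * E ^ 2 * P.real {w | 4 * β * E ^ 2 ≤ F w} ≤ β * E ^ 2 :=
        hmarkov.trans hFI
      have h3 : (4 * P.real {w | 4 * β * E ^ 2 ≤ F w}) * (β * E ^ 2) ≤ 1 * (β * E ^ 2) := by
        nlinarith
      have h4 := le_of_mul_le_mul_right h3 h1
      linarith
    have hnull : NullMeasurableSet (G ∩ {w | F w < 4 * β * E ^ 2}) P :=
      (measurableSet_inj S hS.measurable α V).nullMeasurableSet.inter
        (nullMeasurableSet_lt hFint.aestronglyMeasurable.aemeasurable aemeasurable_const)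
    obtain ⟨D, hDsub, hDm, hDae⟩ := hnull.exists_measurable_subset_ae_eq
    have hsub : G ⊆ (G ∩ {w | F w < 4 * β * E ^ 2}) ∪ {w | 4 * β * E ^ 2 ≤ F w} := by
      intro w hw
      by_cases h : 4 * β * E ^ 2 ≤ F w
      · exact Or.inr h
      · exact Or.inl ⟨hw, lt_of_not_ge h⟩
    have h1 := (measureReal_mono (μ := P) hsub).trans (measureReal_union_le _ _)
    rw [← measureReal_congr hDae] at h1
    refine ⟨D, hDm, by linarith, ?_⟩
    · intro w hwD
      · obtain ⟨hw, h⟩ := hDsub hwD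
        have h : F w < 4 * β * E ^ 2 := h
        have h2 := herr w hw
        have h3 : ∑ i, (sqn (resid U (A i)) + sqn (coef U (S w) (resid U (A i)))) ≤
            E ^ 2 + F w := by
          rw [sum_add_distrib]
          exact add_le_add hAE (sum_le_sum fun i _ => hg3 i w hw)
        have h4 : frob (A - rsvd A (S w)) ^ 2 ≤ ((1 + 2 * β) * E) ^ 2 := by
          have h5 : 0 ≤ β ^ 2 * E ^ 2 := by positivity
          nlinarith
        exact (abs_le_of_sq_le_sq' h4 (by positivity)).2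

end Pool.Agent.H321R2.OSI
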